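import Pool.Agent.H32.CY.Hasse
import Pool.Agent.H7.CY.Defs

/-!
# `N_p ≡ -a_p` for helper7's form of the threefold

`w² = x(x-1)(x-z) y(y-1)(y-z) (1-z)` becomes `w² = x y z (x+1) (z+1) (x+y) (y+z)` under
`(x,y,z) ↦ (1+x, 1+z, 1-y)`.
-/

open PowerSeries

namespace Pool.Agent.H32.CY

open Pool.Agent.H85.OT

/-- the change of variables -/
def chg (p : ℕ) : ZMod p × ZMod p × ZMod p × ZMod p ≃ ZMod p × ZMod p × ZMod p × ZMod p where
  toFun s := (1 + s.1, 1 + s.2.2.1, 1 - s.2.1, s.2.2.2)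
  invFun v := (v.1 - 1, 1 - v.2.2.1, v.2.1 - 1, v.2.2.2)
  left_inv s := by
    obtain ⟨x, y, z, w⟩ := s
    simp
  right_inv v := by
    obtain ⟨x, y, z, w⟩ := v
    simp

theorem points_eq_cyN (p : ℕ) : points p = Pool.Agent.H7.CY.cyN p := by
  unfold points Pool.Agent.H7.CY.cyN
  refine Nat.card_congr ((chg p).subtypeEquiv fun s => ?_)
  obtain ⟨x, y, z, w⟩ := s
  simp only [chg, Equiv.coe_fn_mk]
  have h : (1 + x) * (1 + x - 1) * (1 + x - (1 - y)) *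
      ((1 + z) * (1 + z - 1) * (1 + z - (1 - y))) * (1 - (1 - y)) =
      x * y * z * (x + 1) * (z + 1) * (x + y) * (y + z) := by ring
  rw [h]

theorem f8_eq_f8 : Pool.Agent.H7.CY.f8 = f8 := by
  have h1 := Pool.Agent.H7.CY.f8_eq
  have h2 := f8_eq
  have h3 : (16 : ℤ⟦X⟧) ≠ 0 := by
    intro h0
    have h5 : PowerSeries.coeff 0 (PowerSeries.C (16 : ℤ)) = PowerSeries.coeff 0 (0 : ℤ⟦X⟧) :=
      congrArg (PowerSeries.coeff 0) h0
    rw [PowerSeries.coeff_C, if_pos rfl, map_zero] at h5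
    norm_num at h5
  apply mul_left_cancel₀ h3
  rw [h1, h2]
  ring

/-- `N_p ≡ -a_p` modulo `p` -/
theorem cy_congr (p : ℕ) [Fact p.Prime] (h2 : p ≠ 2) :
    ((Pool.Agent.H7.CY.cyN p : ℕ) : ZMod p) =
      -((PowerSeries.coeff p Pool.Agent.H7.CY.f8 : ℤ) : ZMod p) := by
  rw [f8_eq_f8, ← points_eq_cyN, points_eq h2, coeff_f8 h2]

end Pool.Agent.H32.CY
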