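import Pool.Agent.H85.OT.Vpsi
import Pool.Agent.H85.OT.Fld

/-!
# The weight four form `f8 = η(2z)⁴ η(4z)⁴` of level `8` in terms of theta series

`psi0 = ∑_{n ≥ 0} X^(n²+n)`, `f8 = X (psi0² θ₃² θ₄⁴)(X²)`; `16 f8 = (θ₃⁴ - θ₄⁴) θ₃² θ₄²`.
-/

open PowerSeries

namespace Pool.Agent.H32.CY

open Pool.Agent.H85.OT

/-- `∑_{n ≥ 0} X^(n²+n)` -/
noncomputable def psi0 : ℤ⟦X⟧ :=
  PowerSeries.mk fun n => if IsSquare (4 * n + 1) then 1 else 0

theorem two_psi0 : 2 * psi0 = psi := by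
  ext n
  rw [two_mul, map_add, psi0, psi, PowerSeries.coeff_mk, PowerSeries.coeff_mk]
  split_ifs <;> norm_num

/-- the newform of weight `4` and level `8` -/
noncomputable def f8 : ℤ⟦X⟧ := PowerSeries.X * dbl ℤ (psi0 ^ 2 * th3 ^ 2 * th4 ^ 4)

theorem f8_eq : 16 * f8 = (th3 ^ 4 - th4 ^ 4) * (th3 ^ 2 * th4 ^ 2) := by
  have h1 := two_X_psi
  have h2 := two_dbl_U
  have h3 := dbl_th4_sq
  rw [← two_psi0] at h1
  simp only [map_mul, map_ofNat] at h1
  unfold f8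
  simp only [map_mul, map_pow] at h2 ⊢
  generalize dbl ℤ psi0 = s at *
  generalize dbl ℤ th3 = u at *
  generalize dbl ℤ th4 = v at *
  have e1 : 16 * (PowerSeries.X * (s ^ 2 * u ^ 2 * v ^ 4)) =
      (2 * PowerSeries.X * (2 * s) ^ 2) * (2 * u ^ 2) * (v ^ 2) ^ 2 := by ring
  rw [e1, h1, h2, h3]
  ring

/-- `f8` is a homogeneous polynomial of degree `4` in `θ₃², θ₄²` -/
theorem f8_form : ∃ (M : ℤ) (c : ℕ → ℤ), M ≠ 0 ∧ PowerSeries.C M * f8 =
    ∑ j ∈ Finset.range (4 + 1), PowerSeries.C (c j) * (th3 ^ 2) ^ (4 - j) * (th4 ^ 2) ^ j := by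
  refine ⟨16, fun j => if j = 1 then 1 else if j = 3 then -1 else 0, by norm_num, ?_⟩
  have h : (PowerSeries.C (16 : ℤ) : ℤ⟦X⟧) = 16 := by rw [map_ofNat]
  rw [h, f8_eq]
  simp [Finset.sum_range_succ]
  ring

theorem f8_coeff_even (n : ℕ) : PowerSeries.coeff (2 * n) f8 = 0 := by
  unfold f8
  rcases n with _ | n
  · simp
  · rw [show 2 * (n + 1) = (2 * n + 1) + 1 by ring, PowerSeries.coeff_succ_X_mul, dbl,
      PowerSeries.coeff_expand, if_neg (by omega)]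

theorem f8_zero : PowerSeries.coeff 0 f8 = 0 := f8_coeff_even 0

theorem f8_one : PowerSeries.coeff 1 f8 = 1 := by
  have h : PowerSeries.constantCoeff psi0 = 1 := by
    rw [← PowerSeries.coeff_zero_eq_constantCoeff_apply, psi0, PowerSeries.coeff_mk, if_pos]
    exact ⟨1, by norm_num⟩
  unfold f8
  rw [show (1 : ℕ) = 0 + 1 by rfl, PowerSeries.coeff_succ_X_mul, dbl, PowerSeries.coeff_expand,
    if_pos (dvd_zero _), Nat.zero_div, PowerSeries.coeff_zero_eq_constantCoeff_apply]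
  simp only [map_mul, map_pow, h, fld_c3, fld_c4]
  norm_num

theorem f8_ne : f8 ≠ 0 := by
  intro h
  have h1 := f8_one
  rw [h, map_zero] at h1
  exact zero_ne_one h1

end Pool.Agent.H32.CY
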