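import Pool.Agent.H85.OU.ThC

/-!
# The dichotomy for homogeneous polynomials in `θ₃², θ₄²` (modular forms on `Γ₀(8)`)

`y = θ₄/θ₃`, `y² = x`, `y⁴ = 1 - λ`, `δ y = -(1/4) y (1 - y⁴)`, `U(q²)/U = (1 + y²)/2`, `V(q²)/U = y`.
So `K[y]` is a level datum containing `f U^(-k)` and `f(q²) U^(-k)`.
-/

open PowerSeries
open Pool.Agent.H85.OT Pool.Agent.H85.OU

namespace Pool.Agent.H32.CY

noncomputable def t3 : ℚ⟦X⟧ := PowerSeries.map (Int.castRingHom ℚ) th3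
noncomputable def t4 : ℚ⟦X⟧ := PowerSeries.map (Int.castRingHom ℚ) th4
/-- `θ₄/θ₃` -/
noncomputable def yy : ℚ⟦X⟧ := t4 * t3⁻¹

theorem cc_t3 : PowerSeries.constantCoeff t3 = 1 := by
  rw [t3, ← PowerSeries.coeff_zero_eq_constantCoeff_apply, PowerSeries.coeff_map,
    PowerSeries.coeff_zero_eq_constantCoeff_apply, fld_c3, map_one]

theorem cc_t4 : PowerSeries.constantCoeff t4 = 1 := by
  rw [t4, ← PowerSeries.coeff_zero_eq_constantCoeff_apply, PowerSeries.coeff_map,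
    PowerSeries.coeff_zero_eq_constantCoeff_apply, fld_c4, map_one]

theorem t3_mul_inv : t3 * t3⁻¹ = 1 := by
  apply PowerSeries.mul_inv_cancel
  rw [cc_t3]
  exact one_ne_zero

theorem yy_mul : yy * t3 = t4 := by
  unfold yy
  linear_combination t4 * t3_mul_inv

theorem U_eq : U ℚ = t3 ^ 2 := by
  rw [U, map_pow]
  rfl

theorem V_eq : V ℚ = t4 ^ 2 := by
  rw [V, map_pow]
  rfl

theorem yy_sq : yy ^ 2 = xx ℚ := by
  apply mul_right_cancel₀ (U_ne_zero ℚ)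
  rw [xx_mul_U, U_eq, V_eq, ← yy_mul]
  ring

theorem yy_four : yy ^ 4 = 1 - lam ℚ := by
  have h : yy ^ 4 = (yy ^ 2) ^ 2 := by ring
  rw [h, yy_sq, lam]
  ring

theorem cc_yy : PowerSeries.constantCoeff yy = 1 := by
  have h := congrArg PowerSeries.constantCoeff yy_mul
  rwa [map_mul, cc_t3, cc_t4, mul_one] at h

theorem yy_ne : yy ≠ 0 := by
  intro h
  have h1 := cc_yy
  rw [h, map_zero] at h1
  exact zero_ne_one h1

theorem dbl_V' : dbl ℚ (V ℚ) = U ℚ * yy := by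
  have h := congrArg (PowerSeries.map (Int.castRingHom ℚ)) dbl_th4_sq
  rw [map_pow, map_mul, fld_map_dbl] at h
  rw [V_eq, U_eq, map_pow]
  change dbl ℚ t4 ^ 2 = t3 * t4 at h
  rw [h, ← yy_mul]
  ring

theorem two_ne' : (2 : ℚ⟦X⟧) ≠ 0 := by
  have h3 : (2 : ℚ⟦X⟧) = PowerSeries.C (2 : ℚ) := by rw [map_ofNat]
  rw [h3]
  exact fun h => two_ne_zero ((map_eq_zero_iff _ (PowerSeries.C_injective)).1 h)

theorem C_half : 2 * PowerSeries.C (1 / 2 : ℚ) = 1 := by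
  have h3 : (2 : ℚ⟦X⟧) = PowerSeries.C (2 : ℚ) := by rw [map_ofNat]
  rw [h3, ← map_mul]
  norm_num

theorem dbl_U' : dbl ℚ (U ℚ) = U ℚ * (PowerSeries.C (1 / 2 : ℚ) * (1 + yy ^ 2)) := by
  have h := dbl_U ℚ two_ne_zero
  rw [← yy_sq] at h
  apply mul_left_cancel₀ two_ne'
  linear_combination h - (U ℚ * (1 + yy ^ 2)) * C_half

theorem D_yy : 4 * Dq ℚ yy = -(yy * (1 - yy ^ 4) * U ℚ ^ 2) := by
  have h := Dq_xx ℚ two_ne_zero
  rw [← yy_sq] at h
  have h1 : Dq ℚ (yy ^ 2) = 2 * (yy * Dq ℚ yy) := by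
    rw [pow_two, Derivation.leibniz, smul_eq_mul]
    ring
  rw [h1] at h
  apply mul_left_cancel₀ yy_ne
  linear_combination h

theorem D_yy_pow (j : ℕ) : Dq ℚ (yy ^ j) * 4 = -((j : ℚ⟦X⟧) * (yy ^ j - yy ^ (j + 4)) * U ℚ ^ 2) := by
  induction j with
  | zero => simp
  | succ j ih =>
    rw [pow_succ, Derivation.leibniz, smul_eq_mul, smul_eq_mul]
    have h := D_yy
    push_cast
    linear_combination yy ^ j * h + yy * ih

/-- the level datum -/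
noncomputable def ef : Fin 4 → ℚ⟦X⟧ := fun i => yy ^ (i : ℕ)

theorem pow_mem (j : ℕ) : yy ^ j ∈ SP ℚ ef := by
  have h : yy ^ j = evl ℚ ((1 - Polynomial.X) ^ (j / 4)) * ef ⟨j % 4, Nat.mod_lt _ (by norm_num)⟩ := by
    unfold ef evl
    rw [map_pow, map_sub, map_one, Polynomial.aeval_X, ← yy_four, ← pow_mul, ← pow_add,
      Nat.div_add_mod]
  rw [h]
  exact SP_evl_mul _ (SP_gen _)

theorem evl_C (c : ℚ) : evl ℚ (Polynomial.C c) = PowerSeries.C c := by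
  unfold evl
  rw [Polynomial.aeval_C]
  rfl

theorem poly_mem (P : Polynomial ℚ) : Polynomial.aeval yy P ∈ SP ℚ ef := by
  rw [Polynomial.aeval_eq_sum_range]
  refine ID2_SP_sum _ _ fun j _ => ?_
  have h : P.coeff j • yy ^ j = evl ℚ (Polynomial.C (P.coeff j)) * yy ^ j := by
    rw [evl_C, PowerSeries.smul_eq_C_mul]
  rw [h]
  exact SP_evl_mul _ (pow_mem j)

theorem isDeg_pow {k j : ℕ} (h : j ≤ 4 * k) : IsDeg ℚ k (yy ^ j) := by
  apply IsDeg.sqrt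
  apply IsDeg.sqrt
  have h1 : ((yy ^ j) ^ 2) ^ 2 = evl ℚ ((1 - Polynomial.X) ^ j) := by
    unfold evl
    rw [map_pow, map_sub, map_one, Polynomial.aeval_X, ← yy_four]
    ring
  rw [h1]
  apply IsDeg.of_evl
  refine Polynomial.natDegree_pow_le.trans ?_
  have h2 : (1 - Polynomial.X : Polynomial ℚ).natDegree ≤ 1 := by compute_degree
  calc j * (1 - Polynomial.X : Polynomial ℚ).natDegree ≤ j * 1 := Nat.mul_le_mul_left _ h2
    _ ≤ 2 * (2 * k) := by omega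

theorem isDeg_poly {k : ℕ} (P : Polynomial ℚ) (h : P.natDegree ≤ 4 * k) :
    IsDeg ℚ k (Polynomial.aeval yy P) := by
  rw [Polynomial.aeval_eq_sum_range]
  refine IsDeg.sum _ _ fun j hj => ?_
  have hj' : j ≤ 4 * k := by
    have := Finset.mem_range.1 hj
    omega
  have h : P.coeff j • yy ^ j = evl ℚ (Polynomial.C (P.coeff j)) * yy ^ j := by
    rw [evl_C, PowerSeries.smul_eq_C_mul]
  rw [h]
  have h1 := (IsDeg.of_evl (K := ℚ) (n := 0) (Polynomial.C (P.coeff j))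
    (by rw [Polynomial.natDegree_C])).mul (isDeg_pow hj')
  rwa [zero_add] at h1

theorem del_pow (j : ℕ) : del ℚ (yy ^ j) =
    PowerSeries.C (-(j : ℚ) / 4) * (yy ^ j - yy ^ (j + 4)) := by
  rw [del_apply]
  have hU := U_mul_inv ℚ
  have h := D_yy_pow j
  have h4 : PowerSeries.C (-(j : ℚ) / 4) * 4 = -(j : ℚ⟦X⟧) := by
    have h3 : (4 : ℚ⟦X⟧) = PowerSeries.C (4 : ℚ) := by rw [map_ofNat]
    rw [h3, ← map_mul, div_mul_cancel₀ _ (by norm_num), map_neg, map_natCast]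
  have h5 : (4 : ℚ⟦X⟧) ≠ 0 := by
    have h6 : (4 : ℚ⟦X⟧) = 2 * 2 := by norm_num
    rw [h6]
    exact mul_ne_zero two_ne' two_ne'
  apply mul_right_cancel₀ h5
  have h7 : (U ℚ)⁻¹ ^ 2 * U ℚ ^ 2 = 1 := by
    rw [← mul_pow, mul_comm, hU, one_pow]
  linear_combination (U ℚ)⁻¹ ^ 2 * h - ((j : ℚ⟦X⟧) * (yy ^ j - yy ^ (j + 4))) * h7 -
    (yy ^ j - yy ^ (j + 4)) * h4

theorem ld : LD ℚ 4 ef where
  one := by
    have := pow_mem 0
    rwa [pow_zero] at this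
  mul l l' := by
    unfold ef
    rw [← pow_add]
    exact pow_mem _
  del l := by
    have h : del ℚ (ef l) = Polynomial.aeval yy
        (Polynomial.C (-((l : ℕ) : ℚ) / 4) * (Polynomial.X ^ (l : ℕ) - Polynomial.X ^ ((l : ℕ) + 4))) := by
      unfold ef
      rw [del_pow]
      simp only [map_mul, map_sub, map_pow, Polynomial.aeval_X, Polynomial.aeval_C]
      rfl
    rw [h]
    exact poly_mem _

theorem map_C' (a : ℤ) : PowerSeries.map (Int.castRingHom ℚ) (PowerSeries.C a) =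
    PowerSeries.C (a : ℚ) := by
  rw [PowerSeries.map_C]
  rfl

/-- closure under the two operations -/
theorem exists_poly (k : ℕ) (M : ℤ) (hM : M ≠ 0) (c : ℕ → ℤ) (f : ℤ⟦X⟧)
    (hf : PowerSeries.C M * f =
      ∑ j ∈ Finset.range (k + 1), PowerSeries.C (c j) * (th3 ^ 2) ^ (k - j) * (th4 ^ 2) ^ j) :
    ∃ P : Polynomial ℚ, P.natDegree ≤ 2 * k ∧
      PowerSeries.map (Int.castRingHom ℚ) f * (U ℚ)⁻¹ ^ k = Polynomial.aeval yy P := by
  have hMQ : (M : ℚ) ≠ 0 := by exact_mod_cast hM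
  refine ⟨∑ j ∈ Finset.range (k + 1), Polynomial.C ((c j : ℚ) / M) * Polynomial.X ^ (2 * j), ?_, ?_⟩
  · refine Polynomial.natDegree_sum_le_of_forall_le _ _ fun j hj => ?_
    have hj' : j ≤ k := Nat.lt_succ_iff.1 (Finset.mem_range.1 hj)
    exact (Polynomial.natDegree_C_mul_X_pow_le _ _).trans (by omega)
  · have h := congrArg (PowerSeries.map (Int.castRingHom ℚ)) hf
    rw [map_mul, map_sum, map_C'] at h
    have hCM : PowerSeries.C (1 / (M : ℚ)) * PowerSeries.C (M : ℚ) = 1 := by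
      rw [← map_mul, one_div, inv_mul_cancel₀ hMQ, map_one]
    have h1 : PowerSeries.map (Int.castRingHom ℚ) f * (U ℚ)⁻¹ ^ k =
        PowerSeries.C (1 / (M : ℚ)) * (PowerSeries.C (M : ℚ) *
          PowerSeries.map (Int.castRingHom ℚ) f) * (U ℚ)⁻¹ ^ k := by
      linear_combination -(PowerSeries.map (Int.castRingHom ℚ) f * (U ℚ)⁻¹ ^ k) * hCM
    rw [h1, h, map_sum, Finset.mul_sum, Finset.sum_mul]
    refine Finset.sum_congr rfl fun j hj => ?_
    have hj' : j ≤ k := Nat.lt_succ_iff.1 (Finset.mem_range.1 hj)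
    simp only [map_mul, map_pow, map_C', Polynomial.aeval_X, Polynomial.aeval_C]
    change PowerSeries.C (1 / (M : ℚ)) * (PowerSeries.C (c j : ℚ) * (t3 ^ 2) ^ (k - j) *
      (t4 ^ 2) ^ j) * (U ℚ)⁻¹ ^ k = PowerSeries.C ((c j : ℚ) / M) * yy ^ (2 * j)
    have h2 : PowerSeries.C ((c j : ℚ) / M) = PowerSeries.C (1 / (M : ℚ)) * PowerSeries.C (c j : ℚ) := by
      rw [← map_mul]
      congr 1
      ring
    rw [h2, ← U_eq, ← V_eq, ← xx_mul_U, ← yy_sq]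
    obtain ⟨m, rfl⟩ := Nat.exists_eq_add_of_le hj'
    rw [Nat.add_sub_cancel_left]
    have h3 : (U ℚ) ^ (j + m) * (U ℚ)⁻¹ ^ (j + m) = 1 := by
      rw [← mul_pow, U_mul_inv, one_pow]
    linear_combination (PowerSeries.C (1 / (M : ℚ)) * PowerSeries.C (c j : ℚ) * yy ^ (2 * j)) * h3

theorem exists_poly_dbl (k : ℕ) (M : ℤ) (hM : M ≠ 0) (c : ℕ → ℤ) (f : ℤ⟦X⟧)
    (hf : PowerSeries.C M * f =
      ∑ j ∈ Finset.range (k + 1), PowerSeries.C (c j) * (th3 ^ 2) ^ (k - j) * (th4 ^ 2) ^ j) :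
    ∃ P : Polynomial ℚ, P.natDegree ≤ 2 * k ∧
      dbl ℚ (PowerSeries.map (Int.castRingHom ℚ) f) * (U ℚ)⁻¹ ^ k = Polynomial.aeval yy P := by
  have hMQ : (M : ℚ) ≠ 0 := by exact_mod_cast hM
  refine ⟨∑ j ∈ Finset.range (k + 1), Polynomial.C ((c j : ℚ) / M) *
    (Polynomial.C (1 / 2) * (1 + Polynomial.X ^ 2)) ^ (k - j) * Polynomial.X ^ j, ?_, ?_⟩
  · refine Polynomial.natDegree_sum_le_of_forall_le _ _ fun j hj => ?_
    have hj' : j ≤ k := Nat.lt_succ_iff.1 (Finset.mem_range.1 hj)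
    refine Polynomial.natDegree_mul_le.trans ?_
    have h1 : (Polynomial.C (1 / 2 : ℚ) * (1 + Polynomial.X ^ 2)).natDegree ≤ 2 := by compute_degree
    have h2 : (Polynomial.C ((c j : ℚ) / M) *
        (Polynomial.C (1 / 2) * (1 + Polynomial.X ^ 2)) ^ (k - j)).natDegree ≤ (k - j) * 2 := by
      refine (Polynomial.natDegree_C_mul_le _ _).trans ?_
      exact Polynomial.natDegree_pow_le.trans (Nat.mul_le_mul_left _ h1)
    have h3 : (Polynomial.X ^ j : Polynomial ℚ).natDegree ≤ j := Polynomial.natDegree_X_pow_le j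
    omega
  · have h := congrArg (fun g => dbl ℚ (PowerSeries.map (Int.castRingHom ℚ) g)) hf
    rw [map_mul, map_mul, map_C'] at h
    have hdC : ∀ a : ℚ, dbl ℚ (PowerSeries.C a) = PowerSeries.C a := by
      intro a
      exact LFc_dbl_C a
    rw [hdC] at h
    have hCM : PowerSeries.C (1 / (M : ℚ)) * PowerSeries.C (M : ℚ) = 1 := by
      rw [← map_mul, one_div, inv_mul_cancel₀ hMQ, map_one]
    have h1 : dbl ℚ (PowerSeries.map (Int.castRingHom ℚ) f) * (U ℚ)⁻¹ ^ k =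
        PowerSeries.C (1 / (M : ℚ)) * (PowerSeries.C (M : ℚ) *
          dbl ℚ (PowerSeries.map (Int.castRingHom ℚ) f)) * (U ℚ)⁻¹ ^ k := by
      linear_combination -(dbl ℚ (PowerSeries.map (Int.castRingHom ℚ) f) * (U ℚ)⁻¹ ^ k) * hCM
    rw [h1, h, map_sum, map_sum, map_sum, Finset.mul_sum, Finset.sum_mul]
    refine Finset.sum_congr rfl fun j hj => ?_
    have hj' : j ≤ k := Nat.lt_succ_iff.1 (Finset.mem_range.1 hj)
    simp only [map_mul, map_pow, map_C', Polynomial.aeval_X, Polynomial.aeval_C,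
      map_add, map_one, hdC]
    change PowerSeries.C (1 / (M : ℚ)) * (PowerSeries.C (c j : ℚ) * (dbl ℚ t3 ^ 2) ^ (k - j) *
      (dbl ℚ t4 ^ 2) ^ j) * (U ℚ)⁻¹ ^ k = PowerSeries.C ((c j : ℚ) / M) *
        (PowerSeries.C (1 / 2) * (1 + yy ^ 2)) ^ (k - j) * yy ^ j
    have h2 : PowerSeries.C ((c j : ℚ) / M) = PowerSeries.C (1 / (M : ℚ)) * PowerSeries.C (c j : ℚ) := by
      rw [← map_mul]
      congr 1
      ring
    have h4 : dbl ℚ t3 ^ 2 = U ℚ * (PowerSeries.C (1 / 2 : ℚ) * (1 + yy ^ 2)) := by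
      rw [← map_pow, ← U_eq, dbl_U']
    have h5 : dbl ℚ t4 ^ 2 = U ℚ * yy := by
      rw [← map_pow, ← V_eq, dbl_V']
    rw [h2, h4, h5]
    obtain ⟨m, rfl⟩ := Nat.exists_eq_add_of_le hj'
    rw [Nat.add_sub_cancel_left]
    have h3 : (U ℚ) ^ (j + m) * (U ℚ)⁻¹ ^ (j + m) = 1 := by
      rw [← mul_pow, U_mul_inv, one_pow]
    generalize PowerSeries.C (1 / 2 : ℚ) * (1 + yy ^ 2) = W
    rw [mul_pow, mul_pow]
    linear_combination (PowerSeries.C (1 / (M : ℚ)) * PowerSeries.C (c j : ℚ) * W ^ m * yy ^ j) * h3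

theorem lformX (k : ℕ) (M : ℤ) (hM : M ≠ 0) (c : ℕ → ℤ) (f : ℤ⟦X⟧)
    (hf : PowerSeries.C M * f =
      ∑ j ∈ Finset.range (k + 1), PowerSeries.C (c j) * (th3 ^ 2) ^ (k - j) * (th4 ^ 2) ^ j) :
    LForm ℚ k (PowerSeries.map (Int.castRingHom ℚ) f) := by
  obtain ⟨P, hP, h1⟩ := exists_poly k M hM c f hf
  obtain ⟨Q, hQ, h2⟩ := exists_poly_dbl k M hM c f hf
  refine ⟨4, ef, ld, ?_, ?_, ?_, ?_⟩
  · rw [h1]
    exact poly_mem P
  · rw [h2]
    exact poly_mem Q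
  · rw [h1, ← map_pow]
    exact isDeg_poly _ (Polynomial.natDegree_pow_le.trans (by omega))
  · rw [h2, ← map_pow]
    exact isDeg_poly _ (Polynomial.natDegree_pow_le.trans (by omega))

/-- the dichotomy for homogeneous polynomials in `θ₃², θ₄²` -/
theorem dichX (k : ℕ) (hk : 3 ≤ k) (f : ℤ⟦X⟧)
    (hf : ∃ (M : ℤ) (c : ℕ → ℤ), M ≠ 0 ∧ PowerSeries.C M * f =
      ∑ j ∈ Finset.range (k + 1), PowerSeries.C (c j) * (th3 ^ 2) ^ (k - j) * (th4 ^ 2) ^ j)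
    (hne : f ≠ 0) (h0 : PowerSeries.coeff 0 f = 0) : Dich (Sl2 f) (Ord0 f) := by
  obtain ⟨M, c, hM, h⟩ := hf
  exact dichotomyL f k hk (lformX k M hM c f h) hne h0

end Pool.Agent.H32.CY
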