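import Pool.Agent.H32.CY.He5
import Pool.Agent.H85.OU.Mb

/-!
# Hecke relation of the level `8` form, VI: conclusion

`G8` has the q-expansion `Gs p = ∑ ((p ∣ n ? p³ a(n/p) : 0) + a(pn)) q^n`; `h = G8 - a(p) g8` satisfies
`h ∣ T = h`, `h ∣ L4 = -h`, so `h²` is a modular form of weight `8` on `Γ₀(4)` with q-expansion divisible
by `q^6`, hence `0`.
-/

open UpperHalfPlane ModularForm MatrixGroups CongruenceSubgroup Filter Topology
open Matrix.SpecialLinearGroup (mapGL)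
open scoped Manifold PowerSeries

namespace Pool.Agent.H32.CY

open Pool.Agent.H85.OT Pool.Agent.H85.OU

/-- the coefficients of `f8` -/
noncomputable def a8 (n : ℕ) : ℤ := PowerSeries.coeff n f8

/-- `exp(2 π i z)` -/
noncomputable def qq (z : ℂ) : ℂ := Complex.exp (2 * Real.pi * Complex.I * z)

theorem g8_hasSum (z : ℍ) : HasSum (fun m : ℕ => (a8 m : ℂ) * qq z ^ m) (g8 z) := by
  have h := (QE_g8 z).2
  refine Vhec_congr (fun m => ?_) h
  rw [PowerSeries.coeff_map]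
  rfl

theorem sum1 (p : ℕ) (hp : p ≠ 0) (z : ℍ) :
    HasSum (fun n : ℕ => (if p ∣ n then (p : ℂ) ^ 3 * (a8 (n / p) : ℂ) else 0) * qq z ^ n)
      ((g8 ∣[(4 : ℤ)] (Vhec_Ai p hp)) z) := by
  have hp0 : (0 : ℝ) < p := by exact_mod_cast Nat.pos_of_ne_zero hp
  have h1 := (g8_hasSum (Vhec_Ai p hp • z)).mul_right ((((p : ℝ) : ℂ)) ^ 3 / ((1 : ℝ) : ℂ))
  rw [← slash4 (Vhec_Ai p hp) p 0 1 hp0 one_pos (Vhec_Ai_val p hp)] at h1
  have hq : qq ((Vhec_Ai p hp • z : ℍ) : ℂ) = qq z ^ p := by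
    rw [Vhec_coe (Vhec_Ai p hp) p 0 1 hp0 one_pos (Vhec_Ai_val p hp)]
    unfold qq
    rw [← Complex.exp_nat_mul]
    congr 1
    push_cast
    ring
  have hinj : Function.Injective (fun n : ℕ => p * n) := fun a b hab =>
    Nat.eq_of_mul_eq_mul_left (Nat.pos_of_ne_zero hp) hab
  rw [← hinj.hasSum_iff]
  · refine Vhec_congr (fun m => ?_) h1
    change _ = (if p ∣ p * m then (p : ℂ) ^ 3 * (a8 (p * m / p) : ℂ) else 0) * qq z ^ (p * m)
    rw [if_pos (dvd_mul_right p m), Nat.mul_div_cancel_left m (Nat.pos_of_ne_zero hp), hq,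
      pow_mul]
    push_cast
    ring
  · intro x hx
    rw [if_neg, zero_mul]
    rintro ⟨k, rfl⟩
    exact hx ⟨k, rfl⟩

theorem sum2 (p : ℕ) (hp : p ≠ 0) [hpp : Fact p.Prime] (z : ℍ) :
    HasSum (fun n : ℕ => (a8 (p * n) : ℂ) * qq z ^ n)
      (∑ x : ZMod p, Fb p hp ((x.val : ℕ) : ℤ) z) := by
  have hp0 : (0 : ℝ) < p := by exact_mod_cast Nat.pos_of_ne_zero hp
  have hpC : (p : ℂ) ≠ 0 := by exact_mod_cast hp
  obtain ⟨u, hu⟩ : ∃ u : ℂ, u = Complex.exp (2 * Real.pi * Complex.I * z / p) := ⟨_, rfl⟩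
  obtain ⟨ζ, hζ⟩ : ∃ ζ : ℂ, ζ = Complex.exp (2 * Real.pi * Complex.I / p) := ⟨_, rfl⟩
  have hprim : IsPrimitiveRoot ζ p := by
    rw [hζ]
    exact Complex.isPrimitiveRoot_exp p hp
  have huq : u ^ p = qq z := by
    unfold qq
    rw [hu, ← Complex.exp_nat_mul]
    congr 1
    push_cast
    field_simp
  have hx : ∀ x : ZMod p, HasSum (fun m : ℕ => (a8 m : ℂ) * (u * ζ ^ x.val) ^ m * (1 / (p : ℂ)))
      (Fb p hp ((x.val : ℕ) : ℤ) z) := by
    intro x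
    have h1 := (g8_hasSum (Vhec_A p hp ((x.val : ℕ) : ℤ) • z)).mul_right
      ((((1 : ℝ) : ℂ)) ^ 3 / ((p : ℝ) : ℂ))
    rw [← slash4 (Vhec_A p hp ((x.val : ℕ) : ℤ)) 1 _ p one_pos hp0 (Vhec_A_val p hp _)] at h1
    have hq : qq ((Vhec_A p hp ((x.val : ℕ) : ℤ) • z : ℍ) : ℂ) = u * ζ ^ x.val := by
      rw [Vhec_coe (Vhec_A p hp ((x.val : ℕ) : ℤ)) 1 _ p one_pos hp0 (Vhec_A_val p hp _)]
      unfold qq
      rw [hu, hζ, ← Complex.exp_nat_mul, ← Complex.exp_add]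
      congr 1
      push_cast
      field_simp
    rw [hq] at h1
    refine Vhec_congr (fun m => ?_) h1
    push_cast
    ring
  have hs := hasSum_sum (s := Finset.univ) fun (x : ZMod p) _ => hx x
  have hcoef : ∀ m : ℕ, ∑ x : ZMod p, (a8 m : ℂ) * (u * ζ ^ x.val) ^ m * (1 / (p : ℂ)) =
      if p ∣ m then (a8 m : ℂ) * u ^ m else 0 := by
    intro m
    have h1 : ∀ x : ZMod p, (a8 m : ℂ) * (u * ζ ^ x.val) ^ m * (1 / (p : ℂ)) =
        ((a8 m : ℂ) * u ^ m * (1 / (p : ℂ))) * (ζ ^ m) ^ x.val := by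
      intro x
      rw [mul_pow, ← pow_mul, ← pow_mul, mul_comm x.val m]
      ring
    rw [Finset.sum_congr rfl fun x _ => h1 x, ← Finset.mul_sum, Vhec_geom p (ζ ^ m)
      (by rw [← pow_mul, mul_comm, pow_mul, hprim.pow_eq_one, one_pow])]
    by_cases hd : p ∣ m
    · rw [if_pos ((hprim.pow_eq_one_iff_dvd m).2 hd), if_pos hd]
      field_simp
    · rw [if_neg (fun h => hd ((hprim.pow_eq_one_iff_dvd m).1 h)), if_neg hd, mul_zero]
  replace hs := Vhec_congr hcoef hs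
  have hinj : Function.Injective (fun n : ℕ => p * n) := fun a b hab =>
    Nat.eq_of_mul_eq_mul_left (Nat.pos_of_ne_zero hp) hab
  rw [← hinj.hasSum_iff] at hs
  · refine Vhec_congr (fun n => ?_) hs
    change (if p ∣ p * n then (a8 (p * n) : ℂ) * u ^ (p * n) else 0) = _
    rw [if_pos (dvd_mul_right p n), pow_mul, huq]
  · intro x hx
    rw [if_neg]
    rintro ⟨k, rfl⟩
    exact hx ⟨k, rfl⟩

/-- the q-expansion of `G8` -/
noncomputable def Gs (p : ℕ) : ℂ⟦X⟧ := PowerSeries.mk fun n =>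
  (if p ∣ n then (p : ℂ) ^ 3 * (a8 (n / p) : ℂ) else 0) + (a8 (p * n) : ℂ)

theorem QE_G8 (p : ℕ) (hp : p ≠ 0) [hpp : Fact p.Prime] : QE (G8 p hp) (Gs p) := by
  intro z
  apply Mb_Cv
  unfold G8
  rw [Pi.add_apply, Finset.sum_apply]
  refine Vhec_congr (fun m => ?_) ((sum1 p hp z).add (sum2 p hp z))
  unfold Gs
  rw [PowerSeries.coeff_mk, add_mul]
  rfl

theorem zero_of (p : ℕ) (hp : p ≠ 0) [hpp : Fact p.Prime] (h2 : p ≠ 2) :
    Gs p + PowerSeries.C (-(a8 p : ℂ)) * PowerSeries.map (Int.castRingHom ℂ) f8 = 0 := by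
  obtain ⟨h, hh⟩ : ∃ h : ℍ → ℂ, h = G8 p hp + (-(a8 p : ℂ)) • g8 := ⟨_, rfl⟩
  obtain ⟨H, hH⟩ : ∃ H : ℂ⟦X⟧, H = Gs p + PowerSeries.C (-(a8 p : ℂ)) * PowerSeries.map (Int.castRingHom ℂ) f8 :=
    ⟨_, rfl⟩
  rw [← hH]
  have hQ : QE h H := by
    rw [hh, hH]
    exact (QE_G8 p hp).add (QE_g8.smul _)
  have hT : h ∣[(4 : ℤ)] (ModularGroup.T : SL(2, ℤ)) = h := by
    rw [hh, SlashAction.add_slash, G8_T, ModularForm.SL_smul_slash, g8_T]
  have hL : h ∣[(4 : ℤ)] (L4 : SL(2, ℤ)) = -h := by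
    rw [hh, SlashAction.add_slash, G8_L p hp h2, ModularForm.SL_smul_slash, g8_L, smul_neg, neg_add]
  have hhol : MDifferentiable 𝓘(ℂ) 𝓘(ℂ) h := by
    rw [hh]
    exact (G8_hol p hp).add (g8_hol.const_smul _)
  have hbdd : ∀ γ : SL(2, ℤ), IsBoundedAtImInfty (h ∣[(4 : ℤ)] γ) := by
    intro γ
    rw [hh, SlashAction.add_slash, ModularForm.SL_smul_slash]
    refine Filter.BoundedAtFilter.add (G8_bdd p hp γ) ?_
    exact (g8_bdd γ).const_smul_left _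
  have hmf : IsMF (Gamma0 4) ((2 * 4 : ℕ) : ℤ) (h ^ 2) := by
    refine ⟨hhol.pow 2, fun γ hγ => ?_, fun γ => ?_⟩
    · have h1 := sq_slash h γ
      have h3 := Sg_all hT hL γ hγ
      rw [h3] at h1
      have h4 : (((2 * 4 : ℕ) : ℤ)) = 8 := by norm_num
      rw [h4, h1, smul_pow]
      have h5 : ((((sg γ : ℤˣ) : ℤ) : ℂ)) ^ 2 = 1 := by
        rcases Int.units_eq_one_or (sg γ) with h6 | h6 <;> rw [h6] <;> norm_num
      rw [h5, one_smul]
    · have h4 : (((2 * 4 : ℕ) : ℤ)) = 8 := by norm_num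
      rw [h4, sq_slash, pow_two]
      exact (hbdd γ).mul (hbdd γ)
  obtain ⟨P, hP, hHP⟩ := form_G04 hmf (hQ.pow 2)
  have hX : (PowerSeries.X : ℂ⟦X⟧) ^ 3 ∣ H := by
    rw [PowerSeries.X_pow_dvd_iff]
    intro m hm
    have hp1 : 1 < p := hpp.out.one_lt
    have hp2 : 2 < p := lt_of_le_of_ne hpp.out.two_le (Ne.symm h2)
    rw [hH, map_add, PowerSeries.coeff_C_mul, PowerSeries.coeff_map]
    unfold Gs
    rw [PowerSeries.coeff_mk]
    have ha0 : a8 0 = 0 := f8_zero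
    have ha1 : a8 1 = 1 := f8_one
    have hae : ∀ n, a8 (2 * n) = 0 := fun n => f8_coeff_even n
    change _ + _ + -(a8 p : ℂ) * (a8 m : ℂ) = 0
    interval_cases m
    · rw [if_pos (dvd_zero p), Nat.zero_div, mul_zero, ha0]
      simp
    · rw [if_neg (by rw [Nat.dvd_one]; omega), mul_one, ha1]
      simp
    · rw [if_neg (fun hd => absurd (Nat.le_of_dvd (by norm_num) hd) (by omega)),
        mul_comm p 2, hae, show (2 : ℕ) = 2 * 1 from rfl, hae]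
      simp
  have hP0 : P = 0 := by
    by_contra hP0
    obtain ⟨l, hl, hc⟩ := ord_lam (K := ℂ) two_ne_zero P hP0 4 hP
    apply hc
    have h6 : (PowerSeries.X : ℂ⟦X⟧) ^ 6 ∣ evl ℂ P := by
      have h7 : evl ℂ P = (U ℂ)⁻¹ ^ 8 * H ^ 2 := by
        rw [hHP, show 2 * 4 = 8 from rfl, ← mul_assoc, ← mul_pow, mul_comm ((U ℂ)⁻¹), U_mul_inv, one_pow, one_mul]
      rw [h7]
      refine Dvd.dvd.mul_left ?_ _
      obtain ⟨w, hw⟩ := hX
      exact ⟨w ^ 2, by rw [hw]; ring⟩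
    rw [PowerSeries.X_pow_dvd_iff] at h6
    exact h6 l (by omega)
  rw [hP0] at hHP
  have h8 : H ^ 2 = 0 := by
    rw [hHP]
    simp [evl]
  exact pow_eq_zero_iff (two_ne_zero) |>.1 h8

theorem hecke8 (p : ℕ) (hp : p.Prime) (h2 : p ≠ 2) (n : ℕ) :
    PowerSeries.coeff (p * n) f8 = PowerSeries.coeff p f8 * PowerSeries.coeff n f8 -
      (p : ℤ) ^ 3 * (if p ∣ n then PowerSeries.coeff (n / p) f8 else 0) := by
  have hpp : Fact p.Prime := ⟨hp⟩
  have h := congrArg (PowerSeries.coeff n) (zero_of p hp.ne_zero h2)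
  rw [map_add, PowerSeries.coeff_C_mul, PowerSeries.coeff_map, map_zero] at h
  unfold Gs at h
  rw [PowerSeries.coeff_mk] at h
  change _ + _ + -(a8 p : ℂ) * (a8 n : ℂ) = 0 at h
  change a8 (p * n) = a8 p * a8 n - (p : ℤ) ^ 3 * (if p ∣ n then a8 (n / p) else 0)
  have h6 : ((a8 (p * n) : ℤ) : ℂ) =
      ((a8 p * a8 n - (p : ℤ) ^ 3 * (if p ∣ n then a8 (n / p) else 0) : ℤ) : ℂ) := by
    split_ifs at h ⊢ with hd
    · push_cast
      linear_combination h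
    · push_cast
      linear_combination h
  exact_mod_cast h6

end Pool.Agent.H32.CY
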