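import Pool.Agent.H32.CY.Hasse
import Pool.Agent.H32.CY.He6
import Pool.Agent.H6.OR.Ec
import Pool.Agent.H85.OT.Wcong

/-!
# The rigid Calabi-Yau threefold `w² = x y z (x+1) (z+1) (x+y) (y+z)` has ordinary reduction at a positive
proportion of the primes
-/

open PowerSeries

namespace Pool.Agent.H32.CY

open Pool.Agent.H85.OT

theorem ordinary_f8 : PosLower (fun p => ¬ (p : ℤ) ∣ PowerSeries.coeff p f8) := by
  refine Pool.Agent.H6.OR.ordinary_main 4 le_rfl f8 f8_form f8_zero 2 (by norm_num) (fun _ => 1) ?_ 1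
    (by norm_num) (by rw [f8_one]; norm_num)
  intro p hp hp2 n _
  have h2 : p ≠ 2 := fun h => hp2 (by rw [h])
  rw [hecke8 p hp h2 n]
  ring

/-- replacing a condition by an equivalent one at the odd primes -/
theorem posLower_congr {P Q : ℕ → Prop} (h : ∀ p : ℕ, p.Prime → p ≠ 2 → (P p → Q p))
    (hP : PosLower P) : PosLower Q := by
  have h1 : PosLower (fun p => p.Prime ∧ P p) := by
    obtain ⟨c, hc, x0, hx0⟩ := hP
    refine ⟨c, hc, x0, fun x hx => (hx0 x hx).trans ?_⟩
    have h2 : cnt P x ≤ cnt (fun p => p.Prime ∧ P p) x := by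
      classical
      unfold cnt
      refine Finset.card_le_card fun p hp => ?_
      simp only [Finset.mem_filter] at hp ⊢
      exact ⟨hp.1, hp.2.1, hp.2.1, hp.2.2⟩
    exact_mod_cast h2
  exact PosLower.congr 3 (fun p hp h2 => h p h2.1 (by omega) h2.2) h1

theorem cy_ordinary : PosLower (fun p => ¬ p ∣ points p) := by
  refine posLower_congr (fun p hp h2 h => ?_) ordinary_f8
  have : Fact p.Prime := ⟨hp⟩
  rwa [dvd_points_iff h2]

end Pool.Agent.H32.CY
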