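import Pool.Agent.H85.OT.DefP

/-!
# The number of points of `w² = x y z (x+1) (z+1) (x+y) (y+z)` modulo `p`

`p` odd, `m = (p-1)/2`.  `N_p ≡ ∑_{x,y,z} (x y z (x+1)(z+1)(x+y)(y+z))^m = ∑_y y^m A(y)²`,
`A(y) = ∑_x (x (x+1) (x+y))^m = - coefficient of X^(2m) in X^m (X+1)^m (X+y)^m = - ∑_k C(m,k)² y^k = -h(y)`,
and `∑_y y^m h(y)² = - coefficient of Y^m in h(Y)² = - ∑_k C(m,k)^4`.
-/

namespace Pool.Agent.H32.CY

open Pool.Agent.H85.OT

/-- number of points over `F_p` of the affine threefold `w² = x y z (x+1) (z+1) (x+y) (y+z)` -/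
noncomputable def points (p : ℕ) : ℕ :=
  Nat.card {s : ZMod p × ZMod p × ZMod p × ZMod p //
    s.2.2.2 ^ 2 = s.1 * s.2.1 * s.2.2.1 * (s.1 + 1) * (s.2.2.1 + 1) * (s.1 + s.2.1) *
      (s.2.1 + s.2.2.1)}

/-- `∑_{k ≤ m} C(m,k)^4`, `m = (p-1)/2` -/
def fr (p : ℕ) : ℕ := ∑ k ∈ Finset.range (mm p + 1), (mm p).choose k ^ 4

section

variable {p : ℕ} [hp : Fact p.Prime]

theorem sum_pow_zmod (h2 : p ≠ 2) (i : ℕ) : ∑ x : ZMod p, x ^ i =
    if i ≠ 0 ∧ (p - 1) ∣ i then -1 else 0 := by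
  classical
  have h3 : 1 < p - 1 := by
    have := hp.out.two_le
    omega
  have hu := FiniteField.sum_pow_units (ZMod p) i
  rw [ZMod.card] at hu
  have hs : ∑ x : ZMod p, x ^ i = 0 ^ i + ∑ x : (ZMod p)ˣ, ((x : ZMod p) ^ i) := by
    rw [← Finset.add_sum_erase _ _ (Finset.mem_univ (0 : ZMod p))]
    congr 1
    symm
    refine Finset.sum_bij (fun (u : (ZMod p)ˣ) _ => (u : ZMod p)) ?_ ?_ ?_ ?_
    · intro u _
      exact Finset.mem_erase.2 ⟨u.ne_zero, Finset.mem_univ _⟩
    · intro a _ b _ h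
      exact Units.ext h
    · intro b hb
      exact ⟨Units.mk0 b (Finset.ne_of_mem_erase hb), Finset.mem_univ _, rfl⟩
    · intro a _
      rfl
  rw [hs]
  have hu' : ∑ x : (ZMod p)ˣ, ((x : ZMod p) ^ i) = if (p - 1) ∣ i then -1 else 0 := by
    rw [← hu]
  rw [hu']
  by_cases hi : i = 0
  · subst hi
    simp
  · rw [zero_pow hi, zero_add]
    by_cases hd : (p - 1) ∣ i
    · rw [if_pos hd, if_pos ⟨hi, hd⟩]
    · rw [if_neg hd, if_neg (fun h => hd h.2)]

theorem sum_poly (h2 : p ≠ 2) (P : Polynomial (ZMod p)) (hP : P.natDegree < 2 * (p - 1)) :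
    ∑ x : ZMod p, P.eval x = -P.coeff (p - 1) := by
  have h3 : 1 < p - 1 := by
    have := hp.out.two_le
    omega
  have h1 : ∀ x : ZMod p, P.eval x = ∑ i ∈ Finset.range (2 * (p - 1)), P.coeff i * x ^ i := by
    intro x
    rw [Polynomial.eval_eq_sum_range' hP]
  simp_rw [h1]
  rw [Finset.sum_comm]
  simp_rw [← Finset.mul_sum, sum_pow_zmod h2]
  rw [Finset.sum_eq_single (p - 1)]
  · rw [if_pos ⟨by omega, dvd_rfl⟩, mul_neg, mul_one]
  · intro b hb hne
    rw [if_neg, mul_zero]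
    rintro ⟨h0, c, hc⟩
    have hb' := Finset.mem_range.1 hb
    rw [hc] at hb' hne h0
    have hc2 : c < 2 := by
      by_contra hcc
      have : 2 * (p - 1) ≤ (p - 1) * c := by
        rw [mul_comm]
        exact Nat.mul_le_mul_left _ (by omega)
      omega
    interval_cases c
    · simp at h0
    · simp at hne
  · intro h
    exact absurd (Finset.mem_range.2 (by omega)) h

/-- `∑_x (x (x+1) (x+y))^m = -h(y)` -/
theorem sum_x (h2 : p ≠ 2) (y : ZMod p) :
    ∑ x : ZMod p, (x * (x + 1) * (x + y)) ^ mm p = -(hh p).eval y := by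
  have hm := two_mm hp.out h2
  have hm1 : 1 ≤ mm p := by
    have := hp.out.two_le
    omega
  obtain ⟨P, hPd⟩ : ∃ P : Polynomial (ZMod p), P = Polynomial.X ^ mm p *
    ((Polynomial.X + Polynomial.C 1) ^ mm p * (Polynomial.X + Polynomial.C y) ^ mm p) := ⟨_, rfl⟩
  have hdeg : P.natDegree < 2 * (p - 1) := by
    have e1 : (Polynomial.X ^ mm p : Polynomial (ZMod p)).natDegree ≤ mm p :=
      Polynomial.natDegree_X_pow_le _
    have e2 : ∀ a : ZMod p, ((Polynomial.X + Polynomial.C a) ^ mm p).natDegree ≤ mm p := by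
      intro a
      refine Polynomial.natDegree_pow_le.trans ?_
      rw [Polynomial.natDegree_X_add_C, mul_one]
    have e3 := e2 1
    have e4 := e2 y
    rw [hPd]
    have e5 := Polynomial.natDegree_mul_le (p := (Polynomial.X ^ mm p : Polynomial (ZMod p)))
      (q := (Polynomial.X + Polynomial.C 1) ^ mm p * (Polynomial.X + Polynomial.C y) ^ mm p)
    have e6 := Polynomial.natDegree_mul_le (p := ((Polynomial.X + Polynomial.C (1 : ZMod p)) ^ mm p))
      (q := (Polynomial.X + Polynomial.C y) ^ mm p)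
    omega
  have h1 := sum_poly h2 P hdeg
  have h3 : ∀ x : ZMod p, P.eval x = (x * (x + 1) * (x + y)) ^ mm p := by
    intro x
    rw [hPd]
    simp only [Polynomial.eval_mul, Polynomial.eval_pow, Polynomial.eval_add, Polynomial.eval_X,
      Polynomial.eval_C]
    rw [mul_pow, mul_pow]
    ring
  rw [Finset.sum_congr rfl fun x _ => (h3 x).symm, h1]
  congr 1
  have h4 : p - 1 = mm p + mm p := by omega
  rw [h4, hPd, Polynomial.coeff_X_pow_mul, Polynomial.coeff_mul]
  rw [Finset.Nat.sum_antidiagonal_eq_sum_range_succ_mk]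
  unfold hh
  rw [Polynomial.eval_finsetSum]
  refine Finset.sum_congr rfl fun i hi => ?_
  have hi' : i ≤ mm p := Nat.lt_succ_iff.1 (Finset.mem_range.1 hi)
  simp only [Polynomial.coeff_X_add_C_pow, one_pow, Polynomial.eval_mul, Polynomial.eval_C,
    Polynomial.eval_pow, Polynomial.eval_X]
  rw [Nat.sub_sub_self hi', Nat.choose_symm hi']
  ring

theorem hh_coeff (i : ℕ) : (hh p).coeff i = (((mm p).choose i : ℕ) : ZMod p) ^ 2 := by
  unfold hh
  rw [Polynomial.finsetSum_coeff]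
  simp only [Polynomial.coeff_C_mul_X_pow]
  by_cases hi : i ≤ mm p
  · rw [Finset.sum_eq_single i]
    · rw [if_pos rfl]
    · intro b _ hb
      rw [if_neg (Ne.symm hb)]
    · intro h
      exact absurd (Finset.mem_range.2 (by omega)) h
  · rw [Finset.sum_eq_zero, Nat.choose_eq_zero_of_lt (by omega), Nat.cast_zero,
      zero_pow two_ne_zero]
    intro b hb
    have := Finset.mem_range.1 hb
    rw [if_neg (by omega)]

theorem hh_deg : (hh p).natDegree ≤ mm p := by
  rw [Polynomial.natDegree_le_iff_coeff_eq_zero]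
  intro i hi
  rw [hh_coeff, Nat.choose_eq_zero_of_lt hi, Nat.cast_zero, zero_pow two_ne_zero]

/-- coefficient of `Y^m` in `h²` -/
theorem hh_sq_coeff : ((hh p) ^ 2).coeff (mm p) = ((fr p : ℕ) : ZMod p) := by
  rw [pow_two, Polynomial.coeff_mul, Finset.Nat.sum_antidiagonal_eq_sum_range_succ_mk]
  unfold fr
  rw [Nat.cast_sum]
  refine Finset.sum_congr rfl fun i hi => ?_
  have hi' : i ≤ mm p := Nat.lt_succ_iff.1 (Finset.mem_range.1 hi)
  simp only [hh_coeff]
  rw [Nat.choose_symm hi']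
  push_cast
  ring

theorem sum_y (h2 : p ≠ 2) :
    ∑ y : ZMod p, y ^ mm p * ((hh p).eval y) ^ 2 = -((fr p : ℕ) : ZMod p) := by
  have hm := two_mm hp.out h2
  have hm1 : 1 ≤ mm p := by
    have := hp.out.two_le
    omega
  have hdeg : (Polynomial.X ^ mm p * (hh p) ^ 2).natDegree < 2 * (p - 1) := by
    have e1 : (Polynomial.X ^ mm p : Polynomial (ZMod p)).natDegree ≤ mm p :=
      Polynomial.natDegree_X_pow_le _
    have e2 : ((hh p) ^ 2).natDegree ≤ 2 * mm p :=
      Polynomial.natDegree_pow_le.trans (Nat.mul_le_mul_left _ hh_deg)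
    have e5 := Polynomial.natDegree_mul_le (p := (Polynomial.X ^ mm p : Polynomial (ZMod p)))
      (q := (hh p) ^ 2)
    omega
  have h1 := sum_poly h2 _ hdeg
  have h3 : ∀ y : ZMod p, (Polynomial.X ^ mm p * (hh p) ^ 2).eval y =
      y ^ mm p * ((hh p).eval y) ^ 2 := by
    intro y
    simp only [Polynomial.eval_mul, Polynomial.eval_pow, Polynomial.eval_X]
  rw [Finset.sum_congr rfl fun y _ => (h3 y).symm, h1]
  congr 1
  have h4 : p - 1 = mm p + mm p := by omega
  rw [h4, Polynomial.coeff_X_pow_mul, hh_sq_coeff]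

theorem card_sq (h2 : p ≠ 2) (a : ZMod p) :
    ((Nat.card {w : ZMod p // w ^ 2 = a} : ℕ) : ZMod p) = 1 + a ^ mm p := by
  classical
  have hc : ringChar (ZMod p) ≠ 2 := by
    rwa [ZMod.ringChar_zmod_n]
  have h1 := quadraticChar_card_sqrts hc a
  have h3 := quadraticChar_eq_pow_of_char_ne_two' hc a
  rw [ZMod.card] at h3
  have h4 : p / 2 = mm p := by
    have := two_mm hp.out h2
    omega
  rw [h4] at h3
  have h5 : (Nat.card {w : ZMod p // w ^ 2 = a} : ℤ) = quadraticChar (ZMod p) a + 1 := by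
    rw [← h1, Nat.card_eq_fintype_card, Fintype.card_subtype]
    congr 2
    ext x
    simp
  have h6 := congrArg (Int.cast : ℤ → ZMod p) h5
  rw [Int.cast_add, h3, Int.cast_one, Int.cast_natCast] at h6
  rw [h6, add_comm]

theorem points_eq (h2 : p ≠ 2) : ((points p : ℕ) : ZMod p) = -((fr p : ℕ) : ZMod p) := by
  classical
  have h1 : points p = ∑ x : ZMod p, ∑ y : ZMod p, ∑ z : ZMod p,
      Nat.card {w : ZMod p // w ^ 2 = x * y * z * (x + 1) * (z + 1) * (x + y) * (y + z)} := by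
    unfold points
    simp only [Nat.card_eq_fintype_card, Fintype.card_subtype, Finset.card_filter]
    rw [Fintype.sum_prod_type]
    refine Finset.sum_congr rfl fun x _ => ?_
    rw [Fintype.sum_prod_type]
    refine Finset.sum_congr rfl fun y _ => ?_
    rw [Fintype.sum_prod_type]
  rw [h1]
  push_cast
  simp_rw [card_sq h2]
  have h3 : ∀ x y z : ZMod p, 1 + (x * y * z * (x + 1) * (z + 1) * (x + y) * (y + z)) ^ mm p =
      1 + y ^ mm p * ((x * (x + 1) * (x + y)) ^ mm p * (z * (z + 1) * (z + y)) ^ mm p) := by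
    intro x y z
    rw [← mul_pow, ← mul_pow]
    congr 2
    ring
  simp_rw [h3, Finset.sum_add_distrib]
  have h4 : ∑ _x : ZMod p, ∑ _y : ZMod p, ∑ _z : ZMod p, (1 : ZMod p) = 0 := by
    simp [ZMod.card]
  rw [h4, zero_add, Finset.sum_comm]
  have h5 : ∀ y : ZMod p, ∑ x : ZMod p, ∑ z : ZMod p,
      y ^ mm p * ((x * (x + 1) * (x + y)) ^ mm p * (z * (z + 1) * (z + y)) ^ mm p) =
      y ^ mm p * ((hh p).eval y) ^ 2 := by
    intro y
    simp_rw [← Finset.mul_sum]
    rw [← Finset.sum_mul, sum_x h2]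
    ring
  rw [Finset.sum_congr rfl fun y _ => h5 y, sum_y h2]

end

end Pool.Agent.H32.CY
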