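import Pool.Agent.H32.CY.Defs
import Pool.Agent.H32.CY.Point
import Pool.Agent.H85.OT.Hd

/-!
# `a_p ≡ ∑_k C(m,k)^4` modulo `p` for the level `8` form

`K = F_p`, `p` odd, `D = q d/dq`.  `8 f8 = -U² D x`, `U² = U^(2p) h(λ)²`, `λ = 1 - x²`; the coefficients of `U^(2p)` at
`q^n`, `0 < n < p`, vanish; so `8 a_p` is minus the coefficient of `q^p` in `Q(x) D x`, `Q(X) = h(1-X²)²`, of degree
`≤ 2p-2`.  `(j+1) x^j D x = D (x^(j+1))` has no coefficient at `q^p`, and `x^(p-1) D x = - ∑_{j<p} t^j D t`, `t = 1 - x`,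
has coefficient `-8^p = -8`.  So `a_p` is the coefficient of `X^(p-1)` in `h(1-X²)² = h(X²)²`.
-/

open PowerSeries

namespace Pool.Agent.H32.CY

open Pool.Agent.H85.OT

section

variable {p : ℕ} [hp : Fact p.Prime]

theorem char_zero' : ((p : ℕ) : (ZMod p)⟦X⟧) = 0 := by
  have h : ((p : ℕ) : (ZMod p)⟦X⟧) = PowerSeries.C ((p : ℕ) : ZMod p) := by rw [map_natCast]
  rw [h, CharP.cast_eq_zero, map_zero]

/-- the coefficients of a `p`-th power -/
theorem coeff_pow_char (G : (ZMod p)⟦X⟧) (n : ℕ) (hn : ¬ p ∣ n) :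
    PowerSeries.coeff n (G ^ p) = 0 := by
  have h1 : Dq (ZMod p) (G ^ p) = 0 := by
    rw [Derivation.leibniz_pow, nsmul_eq_mul, char_zero', zero_mul]
  have h2 := coeff_Dq (G ^ p) n
  rw [h1, map_zero] at h2
  rcases mul_eq_zero.1 h2.symm with h | h
  · exact absurd ((ZMod.natCast_eq_zero_iff n p).1 h) hn
  · exact h

theorem coeff_pow_char_mul (G W : (ZMod p)⟦X⟧) (hG : PowerSeries.constantCoeff G = 1)
    (hW : PowerSeries.coeff 0 W = 0) :
    PowerSeries.coeff p (G ^ p * W) = PowerSeries.coeff p W := by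
  rw [PowerSeries.coeff_mul, Finset.sum_eq_single (0, p)]
  · rw [PowerSeries.coeff_zero_eq_constantCoeff_apply, map_pow, hG, one_pow, one_mul]
  · rintro ⟨i, j⟩ hij hne
    have h := Finset.HasAntidiagonal.mem_antidiagonal.1 hij
    simp only at h ⊢
    by_cases hd : p ∣ i
    · obtain ⟨c, rfl⟩ := hd
      have hp0 := hp.out.pos
      rcases c with _ | c
      · exfalso
        apply hne
        rw [mul_zero, zero_add] at h
        rw [h, mul_zero]
      · have : j = 0 := by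
          have h5 : p * (c + 1) = p * c + p := by ring
          omega
        rw [this, hW, mul_zero]
    · rw [coeff_pow_char G i hd, zero_mul]
  · intro h
    exact absurd (Finset.HasAntidiagonal.mem_antidiagonal.2 (zero_add p)) h

/-- `t^(p-1) D t` -/
theorem coeff_t {t : (ZMod p)⟦X⟧} (h0 : PowerSeries.constantCoeff t = 0)
    (h1 : PowerSeries.coeff 1 t = 8) :
    PowerSeries.coeff p (t ^ (p - 1) * Dq (ZMod p) t) = 8 := by
  obtain ⟨s, hs⟩ := PowerSeries.X_dvd_iff.2 h0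
  have hs1 : PowerSeries.constantCoeff s = 8 := by
    have h2 := h1
    rw [hs, show (1 : ℕ) = 0 + 1 by rfl, PowerSeries.coeff_succ_X_mul,
      PowerSeries.coeff_zero_eq_constantCoeff_apply] at h2
    exact h2
  have hD : Dq (ZMod p) t = PowerSeries.X * PowerSeries.derivative (R := ZMod p) t := by
    simp [Dq]
  have hd0 : PowerSeries.constantCoeff (PowerSeries.derivative (R := ZMod p) t) = 8 := by
    rw [← PowerSeries.coeff_zero_eq_constantCoeff_apply, PowerSeries.coeff_derivative, zero_add, h1]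
    simp
  have hp1 := hp.out.one_lt
  have e : t ^ (p - 1) * Dq (ZMod p) t =
      PowerSeries.X ^ p * (s ^ (p - 1) * PowerSeries.derivative (R := ZMod p) t) := by
    rw [hD]
    conv_lhs => rw [hs]
    rw [mul_pow, ← hs]
    have h5 : (PowerSeries.X : (ZMod p)⟦X⟧) ^ p = PowerSeries.X ^ (p - 1) * PowerSeries.X := by
      rw [← pow_succ, Nat.sub_add_cancel hp1.le]
    rw [h5]
    ring
  rw [e, PowerSeries.coeff_X_pow_mul', if_pos le_rfl, Nat.sub_self,
    PowerSeries.coeff_zero_eq_constantCoeff_apply, map_mul, map_pow, hs1, hd0, ← pow_succ,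
    Nat.sub_add_cancel hp1.le, ZMod.pow_card]

theorem coeff_Dpow {t : (ZMod p)⟦X⟧} (j : ℕ) (hj : ¬ p ∣ j + 1) :
    PowerSeries.coeff p (t ^ j * Dq (ZMod p) t) = 0 := by
  have h1 : Dq (ZMod p) (t ^ (j + 1)) = ((j + 1 : ℕ) : (ZMod p)⟦X⟧) * (t ^ j * Dq (ZMod p) t) := by
    rw [Derivation.leibniz_pow, nsmul_eq_mul, Nat.add_sub_cancel, smul_eq_mul]
  have h2 := congrArg (PowerSeries.coeff p) h1
  have h3 : ((j + 1 : ℕ) : (ZMod p)⟦X⟧) = PowerSeries.C ((j + 1 : ℕ) : ZMod p) := by rw [map_natCast]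
  rw [coeff_Dq, CharP.cast_eq_zero, zero_mul, h3, PowerSeries.coeff_C_mul] at h2
  rcases mul_eq_zero.1 h2.symm with h | h
  · exact absurd ((ZMod.natCast_eq_zero_iff (j + 1) p).1 h) hj
  · exact h

theorem coeff_x (x : (ZMod p)⟦X⟧) (h0 : PowerSeries.constantCoeff x = 1)
    (h1 : PowerSeries.coeff 1 x = -8) :
    PowerSeries.coeff p (x ^ (p - 1) * Dq (ZMod p) x) = -8 := by
  obtain ⟨t, ht⟩ : ∃ t, t = 1 - x := ⟨_, rfl⟩
  have hp1 := hp.out.one_lt
  have : CharP (ZMod p)⟦X⟧ p := charP_of_injective_ringHom (PowerSeries.C_injective) p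
  have ht0 : PowerSeries.constantCoeff t = 0 := by rw [ht, map_sub, map_one, h0, sub_self]
  have ht1 : PowerSeries.coeff 1 t = 8 := by
    rw [ht, map_sub, h1, PowerSeries.coeff_one, if_neg one_ne_zero]
    ring
  have hx : x ≠ 0 := by
    intro h
    rw [h, map_zero] at h0
    exact zero_ne_one h0
  have hxt : x = 1 - t := by rw [ht]; ring
  have h2 : x ^ (p - 1) = ∑ j ∈ Finset.range p, t ^ j := by
    apply mul_right_cancel₀ hx
    have h3 := geom_sum_mul_neg t p
    rw [← hxt] at h3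
    rw [h3, ← pow_succ, Nat.sub_add_cancel hp1.le, hxt, sub_pow_char, one_pow]
  have h4 : Dq (ZMod p) x = -Dq (ZMod p) t := by
    rw [hxt, map_sub, Derivation.map_one_eq_zero, zero_sub]
  rw [h2, h4, mul_neg, map_neg, Finset.sum_mul, map_sum]
  congr 1
  rw [Finset.sum_eq_single (p - 1)]
  · exact coeff_t ht0 ht1
  · intro j hj hne
    have hj' := Finset.mem_range.1 hj
    apply coeff_Dpow
    intro hd
    have := Nat.le_of_dvd (by omega) hd
    omega
  · intro h
    exact absurd (Finset.mem_range.2 (by omega)) h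

theorem coeff_poly (x : (ZMod p)⟦X⟧) (h0 : PowerSeries.constantCoeff x = 1)
    (h1 : PowerSeries.coeff 1 x = -8) (Q : Polynomial (ZMod p)) (hQ : Q.natDegree ≤ 2 * (p - 1)) :
    PowerSeries.coeff p (Polynomial.aeval x Q * Dq (ZMod p) x) = -8 * Q.coeff (p - 1) := by
  have hp1 := hp.out.one_lt
  rw [Polynomial.aeval_eq_sum_range' (Nat.lt_succ_of_le hQ), Finset.sum_mul, map_sum,
    Finset.sum_eq_single (p - 1)]
  · rw [smul_mul_assoc, map_smul, coeff_x x h0 h1, smul_eq_mul, mul_comm]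
  · intro j hj hne
    have hj' := Finset.mem_range.1 hj
    rw [smul_mul_assoc, map_smul, coeff_Dpow, smul_zero]
    rintro ⟨c, hc⟩
    rcases c with _ | _ | c
    · omega
    · omega
    · have h5 : p * (c + 1 + 1) = p * c + 2 * p := by ring
      omega
  · intro h
    exact absurd (Finset.mem_range.2 (by omega)) h

/-- `h(1-Y) = (-1)^m h(Y)` -/
theorem hh_symm (h2 : p ≠ 2) : (hh p).comp (1 - Polynomial.X) = Polynomial.C ((-1) ^ mm p) * hh p := by
  have hm := two_mm hp.out h2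
  have hm1 : 1 ≤ mm p := by
    have := hp.out.two_le
    omega
  apply Polynomial.eq_of_degree_sub_lt_of_eval_finset_eq (Finset.univ : Finset (ZMod p))
  · have h1 : (Polynomial.comp (hh p) (1 - Polynomial.X)).natDegree ≤ mm p := by
      refine Polynomial.natDegree_comp_le.trans ?_
      have h3 : (1 - Polynomial.X : Polynomial (ZMod p)).natDegree ≤ 1 := by compute_degree
      calc (hh p).natDegree * (1 - Polynomial.X : Polynomial (ZMod p)).natDegree ≤ mm p * 1 :=
            Nat.mul_le_mul hh_deg h3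
        _ = mm p := mul_one _
    have h4 : (Polynomial.C ((-1) ^ mm p) * hh p).natDegree ≤ mm p :=
      (Polynomial.natDegree_C_mul_le _ _).trans hh_deg
    have h5 := (Polynomial.natDegree_sub_le_of_le h1 h4)
    rw [Finset.card_univ, ZMod.card]
    refine lt_of_le_of_lt Polynomial.degree_le_natDegree ?_
    have h6 : ((Polynomial.comp (hh p) (1 - Polynomial.X)) - Polynomial.C ((-1) ^ mm p) * hh p).natDegree < p := by
      rw [max_self] at h5
      omega
    exact_mod_cast h6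
  · intro y _
    have e1 := sum_x h2 y
    have e2 := sum_x h2 (1 - y)
    rw [Polynomial.eval_comp, Polynomial.eval_mul, Polynomial.eval_C, Polynomial.eval_sub,
      Polynomial.eval_one, Polynomial.eval_X]
    have e3 : ∑ x : ZMod p, (x * (x + 1) * (x + (1 - y))) ^ mm p =
        (-1) ^ mm p * ∑ x : ZMod p, (x * (x + 1) * (x + y)) ^ mm p := by
      rw [Finset.mul_sum]
      refine Fintype.sum_equiv (Equiv.subLeft (-1 : ZMod p)) _ _ fun x => ?_
      rw [← mul_pow]
      congr 1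
      simp only [Equiv.subLeft_apply]
      ring
    rw [e3, e1] at e2
    linear_combination e2

theorem Q_coeff (h2 : p ≠ 2) :
    (((hh p).comp (1 - Polynomial.X ^ 2)) ^ 2).coeff (p - 1) = ((fr p : ℕ) : ZMod p) := by
  have hm := two_mm hp.out h2
  have h1 : (hh p).comp (1 - Polynomial.X ^ 2) =
      Polynomial.C ((-1) ^ mm p) * (hh p).comp (Polynomial.X ^ 2) := by
    have h3 : (hh p).comp (1 - Polynomial.X ^ 2) =
        ((hh p).comp (1 - Polynomial.X)).comp (Polynomial.X ^ 2) := by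
      rw [Polynomial.comp_assoc]
      congr 1
      simp
    rw [h3, hh_symm h2, Polynomial.mul_comp, Polynomial.C_comp]
  have h4 : ((hh p).comp (1 - Polynomial.X ^ 2)) ^ 2 = Polynomial.expand (ZMod p) 2 ((hh p) ^ 2) := by
    rw [h1, mul_pow, ← Polynomial.C_pow, ← pow_mul, mul_comm (mm p) 2, pow_mul, neg_one_sq, one_pow,
      Polynomial.C_1, one_mul, Polynomial.expand_eq_comp_X_pow, Polynomial.pow_comp]
  rw [h4, show p - 1 = mm p * 2 by omega, Polynomial.coeff_expand_mul two_pos, hh_sq_coeff]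

theorem red_f8 (h2 : p ≠ 2) : 8 * PowerSeries.map (Int.castRingHom (ZMod p)) f8 =
    -(U (ZMod p) ^ 2 * Dq (ZMod p) (xx (ZMod p))) := by
  have h := congrArg (PowerSeries.map (Int.castRingHom (ZMod p))) f8_eq
  have hD := Dq_xx (ZMod p) (two_ne h2)
  have h3 : (PowerSeries.map (Int.castRingHom (ZMod p))) (th3 ^ 4 - th4 ^ 4) =
      U (ZMod p) ^ 2 - V (ZMod p) ^ 2 := by
    rw [U, V, ← map_pow, ← map_pow, ← map_sub]
    congr 1
    ring
  have h4 : (PowerSeries.map (Int.castRingHom (ZMod p))) (th3 ^ 2 * th4 ^ 2) =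
      U (ZMod p) * V (ZMod p) := by
    rw [U, V, ← map_mul]
  rw [map_mul, map_mul, h3, h4, map_ofNat, ← xx_mul_U] at h
  have h5 : (2 : (ZMod p)⟦X⟧) ≠ 0 := by
    have h6 : (2 : (ZMod p)⟦X⟧) = PowerSeries.C (2 : ZMod p) := by rw [map_ofNat]
    rw [h6]
    exact fun h => two_ne h2 ((map_eq_zero_iff _ (PowerSeries.C_injective)).1 h)
  apply mul_left_cancel₀ h5
  linear_combination h + U (ZMod p) ^ 2 * hD

theorem coeff_f8 (h2 : p ≠ 2) :
    ((PowerSeries.coeff p f8 : ℤ) : ZMod p) = ((fr p : ℕ) : ZMod p) := by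
  have hm := two_mm hp.out h2
  have h := congrArg (PowerSeries.coeff p) (red_f8 h2)
  have hH := hasse h2
  obtain ⟨Uu, hU⟩ : ∃ Uu, Uu = U (ZMod p) := ⟨_, rfl⟩
  have hUc : PowerSeries.constantCoeff Uu = 1 := by rw [hU]; exact constCoeff_U _
  obtain ⟨Q, hQ⟩ : ∃ Q, Q = ((hh p).comp (1 - Polynomial.X ^ 2)) ^ 2 := ⟨_, rfl⟩
  have hQx : Polynomial.aeval (xx (ZMod p)) Q = (Polynomial.aeval (lam (ZMod p)) (hh p)) ^ 2 := by
    rw [hQ, map_pow, Polynomial.aeval_comp, map_sub, map_one, map_pow, Polynomial.aeval_X]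
    rfl
  have hQd : Q.natDegree ≤ 2 * (p - 1) := by
    rw [hQ]
    refine Polynomial.natDegree_pow_le.trans ?_
    have h1 : ((hh p).comp (1 - Polynomial.X ^ 2)).natDegree ≤ mm p * 2 := by
      refine Polynomial.natDegree_comp_le.trans ?_
      have h3 : (1 - Polynomial.X ^ 2 : Polynomial (ZMod p)).natDegree ≤ 2 := by compute_degree
      exact Nat.mul_le_mul hh_deg h3
    omega
  have h3 : U (ZMod p) ^ 2 * Dq (ZMod p) (xx (ZMod p)) =
      (Uu ^ 2) ^ p * (Polynomial.aeval (xx (ZMod p)) Q * Dq (ZMod p) (xx (ZMod p))) := by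
    rw [hQx]
    have e1 : (Uu ^ 2) ^ p = (Uu ^ (2 * mm p)) ^ 2 * Uu ^ 2 := by
      rw [← pow_mul, ← pow_mul, ← pow_add]
      congr 1
      omega
    rw [e1]
    rw [← hU] at hH ⊢
    have e2 : (Uu ^ (2 * mm p)) ^ 2 * (Polynomial.aeval (lam (ZMod p)) (hh p)) ^ 2 = 1 := by
      rw [← mul_pow, hH, one_pow]
    linear_combination -(Uu ^ 2 * Dq (ZMod p) (xx (ZMod p))) * e2
  have h4 : PowerSeries.coeff p (U (ZMod p) ^ 2 * Dq (ZMod p) (xx (ZMod p))) =
      -8 * ((fr p : ℕ) : ZMod p) := by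
    rw [h3, coeff_pow_char_mul, coeff_poly _ (constCoeff_xx _) (coeff_one_xx _) Q hQd, hQ,
      Q_coeff h2]
    · rw [map_pow, hUc, one_pow]
    · rw [PowerSeries.coeff_zero_eq_constantCoeff_apply, map_mul,
        ← PowerSeries.coeff_zero_eq_constantCoeff_apply (Dq _ _), coeff_Dq, Nat.cast_zero, zero_mul,
        mul_zero]
  rw [map_neg, h4] at h
  have h8 : (8 : (ZMod p)⟦X⟧) = PowerSeries.C (8 : ZMod p) := by rw [map_ofNat]
  rw [h8, PowerSeries.coeff_C_mul, PowerSeries.coeff_map, eq_intCast] at h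
  have h9 : (8 : ZMod p) ≠ 0 := by
    have : (8 : ZMod p) = 2 ^ 3 := by norm_num
    rw [this]
    exact pow_ne_zero _ (two_ne h2)
  apply mul_left_cancel₀ h9
  linear_combination h

/-- the number of points is `-a_p` modulo `p` -/
theorem dvd_points_iff (h2 : p ≠ 2) :
    p ∣ points p ↔ ((p : ℕ) : ℤ) ∣ PowerSeries.coeff p f8 := by
  rw [← ZMod.natCast_eq_zero_iff, ← ZMod.intCast_zmod_eq_zero_iff_dvd, points_eq h2, coeff_f8 h2,
    neg_eq_zero]

end

end Pool.Agent.H32.CY
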