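import Pool.Agent.H85.OT.Vth

/-!
# Hecke relation of the level `8` form, I: theta transformations

`Aa = θ₃²`, `Bb = θ₄²` (nome `exp(π i τ)`), `L τ = τ/(2τ+1) = -1/w`, `w = -1/τ - 2`:
`Aa(L τ) = (2τ+1) Aa τ`, `Bb(L τ) = -(2τ+1) Bb τ`.
-/

open PowerSeries

namespace Pool.Agent.H32.CY

open Pool.Agent.H85.OT

/-- `θ₃(τ)²` -/
noncomputable def Aa (τ : ℂ) : ℂ := jacobiTheta τ ^ 2

/-- `θ₄(τ)²` -/
noncomputable def Bb (τ : ℂ) : ℂ := jacobiTheta (τ + 1) ^ 2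

theorem half2 (τ : ℂ) (hτ : 0 < τ.im) (z : ℂ) : jacobiTheta₂ (z / τ) (-1 / τ) ^ 2 =
    (-Complex.I * τ) * (Complex.exp (Real.pi * Complex.I * z ^ 2 / τ) * jacobiTheta₂ z τ) ^ 2 := by
  have hτ0 : τ ≠ 0 := by
    rintro rfl
    simp at hτ
  have h1 := jacobiTheta₂_functional_equation z τ
  have hI : (-Complex.I * τ) ≠ 0 := mul_ne_zero (neg_ne_zero.2 Complex.I_ne_zero) hτ0
  have hc : (-Complex.I * τ) ^ (1 / 2 : ℂ) ≠ 0 := by
    rw [Ne, Complex.cpow_eq_zero_iff]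
    rintro ⟨h, -⟩
    exact hI h
  have h4 : ((-Complex.I * τ) ^ (1 / 2 : ℂ)) ^ 2 = -Complex.I * τ := by
    rw [← Complex.cpow_nat_mul]
    have e : ((2 : ℕ) : ℂ) * (1 / 2) = 1 := by norm_num
    rw [e, Complex.cpow_one]
  have h5 : Complex.exp (Real.pi * Complex.I * z ^ 2 / τ) *
      Complex.exp (-Real.pi * Complex.I * z ^ 2 / τ) = 1 := by
    rw [← Complex.exp_add]
    have e : (Real.pi * Complex.I * z ^ 2 / τ + -Real.pi * Complex.I * z ^ 2 / τ : ℂ) = 0 := by ring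
    rw [e, Complex.exp_zero]
  have h6 : jacobiTheta₂ (z / τ) (-1 / τ) = (-Complex.I * τ) ^ (1 / 2 : ℂ) *
      (Complex.exp (Real.pi * Complex.I * z ^ 2 / τ) * jacobiTheta₂ z τ) := by
    rw [h1]
    have h7 : (-Complex.I * τ) ^ (1 / 2 : ℂ) * (1 / (-Complex.I * τ) ^ (1 / 2 : ℂ)) = 1 := by
      rw [mul_one_div_cancel hc]
    calc jacobiTheta₂ (z / τ) (-1 / τ) = 1 * (1 * jacobiTheta₂ (z / τ) (-1 / τ)) := by ring
      _ = ((-Complex.I * τ) ^ (1 / 2 : ℂ) * (1 / (-Complex.I * τ) ^ (1 / 2 : ℂ))) *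
          ((Complex.exp (Real.pi * Complex.I * z ^ 2 / τ) *
            Complex.exp (-Real.pi * Complex.I * z ^ 2 / τ)) * jacobiTheta₂ (z / τ) (-1 / τ)) := by
          rw [h7, h5]
      _ = _ := by ring
  rw [h6, mul_pow, h4]

/-- imaginary part of `-1/τ` -/
theorem im_S (τ : ℂ) (hτ : 0 < τ.im) : 0 < (-1 / τ).im := by
  have h : (-1 / τ) = -(τ⁻¹) := by rw [neg_div, one_div]
  rw [h, Complex.neg_im, Complex.inv_im]
  have hn : 0 < Complex.normSq τ := Complex.normSq_pos.2 (by rintro rfl; simp at hτ)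
  rw [neg_div, neg_neg]
  exact div_pos hτ hn

theorem Aa_S (τ : ℂ) (hτ : 0 < τ.im) : Aa (-1 / τ) = (-Complex.I * τ) * Aa τ := by
  have h := half2 τ hτ 0
  rw [zero_div] at h
  unfold Aa
  rw [jacobiTheta_eq_jacobiTheta₂, jacobiTheta_eq_jacobiTheta₂, h]
  norm_num

theorem Bb_S (τ : ℂ) (hτ : 0 < τ.im) : Bb (-1 / τ) =
    (-Complex.I * τ) * (Complex.exp (Real.pi * Complex.I * τ / 2) * jacobiTheta₂ (τ / 2) τ ^ 2) := by
  have hτ0 : τ ≠ 0 := by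
    rintro rfl
    simp at hτ
  have h := half2 τ hτ (τ / 2)
  have e1 : τ / 2 / τ = 1 / 2 := by
    field_simp
  rw [e1, mul_pow, ← Complex.exp_nat_mul] at h
  have e2 : (((2 : ℕ) : ℂ) * (Real.pi * Complex.I * (τ / 2) ^ 2 / τ)) = Real.pi * Complex.I * τ / 2 := by
    push_cast
    field_simp
  rw [e2] at h
  rw [← h]
  unfold Bb
  rw [Vth_shift]

theorem Aa_two (τ : ℂ) : Aa (τ - 2) = Aa τ := by
  unfold Aa
  have h := jacobiTheta_two_add (τ - 2)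
  rw [show 2 + (τ - 2) = τ by ring] at h
  rw [h]

/-- `θ₂²` changes sign under `τ ↦ τ - 2` -/
theorem Th2_two (τ : ℂ) : Complex.exp (Real.pi * Complex.I * (τ - 2) / 2) *
    jacobiTheta₂ ((τ - 2) / 2) (τ - 2) ^ 2 =
    -(Complex.exp (Real.pi * Complex.I * τ / 2) * jacobiTheta₂ (τ / 2) τ ^ 2) := by
  have h1 : jacobiTheta₂ ((τ - 2) / 2) (τ - 2) = jacobiTheta₂ (τ / 2) τ := by
    have e1 := jacobiTheta₂_add_right ((τ - 2) / 2) (τ - 2)
    have e2 := jacobiTheta₂_add_left ((τ - 2) / 2) τ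
    rw [show τ - 2 + 2 = τ by ring] at e1
    rw [show (τ - 2) / 2 + 1 = τ / 2 by ring] at e2
    rw [← e1, ← e2]
  have h2 : Complex.exp (Real.pi * Complex.I * (τ - 2) / 2) =
      -Complex.exp (Real.pi * Complex.I * τ / 2) := by
    have e : (Real.pi * Complex.I * (τ - 2) / 2 : ℂ) =
        Real.pi * Complex.I * τ / 2 - Real.pi * Complex.I := by ring
    rw [e, Complex.exp_sub, Complex.exp_pi_mul_I]
    ring
  rw [h1, h2]
  ring

/-- `-1/(-1/τ - 2) = τ/(2τ+1)` -/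
theorem L_eq (τ : ℂ) (hτ : 0 < τ.im) : τ / (2 * τ + 1) = -1 / (-1 / τ - 2) := by
  have hτ0 : τ ≠ 0 := by
    rintro rfl
    simp at hτ
  have h1 : 2 * τ + 1 ≠ 0 := by
    intro h
    have := congrArg Complex.im h
    simp at this
    exact hτ.ne' this
  have h2 : -1 / τ - 2 = -(2 * τ + 1) / τ := by
    field_simp
    ring
  rw [h2]
  field_simp

theorem im_L (τ : ℂ) (hτ : 0 < τ.im) : 0 < (-1 / τ - 2).im := by
  have h := im_S τ hτ
  simpa using h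

theorem Aa_L (τ : ℂ) (hτ : 0 < τ.im) : Aa (τ / (2 * τ + 1)) = (2 * τ + 1) * Aa τ := by
  have hτ0 : τ ≠ 0 := by
    rintro rfl
    simp at hτ
  rw [L_eq τ hτ, Aa_S _ (im_L τ hτ), Aa_two]
  have h := Aa_S _ (im_S τ hτ)
  have h1 : -1 / (-1 / τ) = τ := by field_simp
  rw [h1] at h
  rw [h]
  have hs : (-1 / τ) ≠ 0 := by
    intro h0
    have := im_S τ hτ
    rw [h0] at this
    simp at this
  field_simp
  ring_nf

theorem Bb_L (τ : ℂ) (hτ : 0 < τ.im) : Bb (τ / (2 * τ + 1)) = -(2 * τ + 1) * Bb τ := by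
  have hτ0 : τ ≠ 0 := by
    rintro rfl
    simp at hτ
  rw [L_eq τ hτ, Bb_S _ (im_L τ hτ), Th2_two]
  have h := Bb_S _ (im_S τ hτ)
  have h1 : -1 / (-1 / τ) = τ := by field_simp
  rw [h1] at h
  rw [h]
  generalize Complex.exp (Real.pi * Complex.I * (-1 / τ) / 2) *
    jacobiTheta₂ (-1 / τ / 2) (-1 / τ) ^ 2 = Z
  field_simp
  ring_nf

end Pool.Agent.H32.CY
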