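import Pool.Agent.H85.OU.Me

/-!
# Hecke relation of the level `8` form, II: generators of `Γ₀(4)` and the sign character

`Γ₀(4)` is generated by `T`, `L4 = [[1,0],[4,1]]`, `-1`: Euclid's algorithm on the second row `(c, d)`:
`γ T^k` has second row `(c, d + k c)`, `γ L4^l` has second row `(c + 4 l d, d)`.
`sg γ = (-1)^(c/4)` is a character of `Γ₀(4)`; if `h ∣ T = h` and `h ∣ L4 = -h` (weight `4`) then
`h ∣ γ = sg γ h` for all `γ ∈ Γ₀(4)`.
-/

open UpperHalfPlane ModularForm MatrixGroups CongruenceSubgroup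

namespace Pool.Agent.H32.CY

open Pool.Agent.H85.OT Pool.Agent.H85.OU

/-- `[[1,0],[4,1]]` -/
def L4 : SL(2, ℤ) := Wb_m 1 0 4 1 (by norm_num)

theorem L4_mem : L4 ∈ Gamma0 4 := by
  rw [Gamma0_mem]
  show (((4 : ℤ)) : ZMod 4) = 0
  decide

theorem T_mem : ModularGroup.T ∈ Gamma0 4 := by
  rw [Gamma0_mem]
  simp [ModularGroup.coe_T]

theorem mul_entry (x y : SL(2, ℤ)) (i j : Fin 2) :
    (x * y) i j = x i 0 * y 0 j + x i 1 * y 1 j := by
  show ((x * y : SL(2, ℤ)) : Matrix (Fin 2) (Fin 2) ℤ) i j = _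
  rw [Matrix.SpecialLinearGroup.coe_mul, Matrix.mul_apply, Fin.sum_univ_two]

theorem four_dvd {γ : SL(2, ℤ)} (h : γ ∈ Gamma0 4) : (4 : ℤ) ∣ γ 1 0 := by
  rw [Gamma0_mem] at h
  obtain ⟨k, hk⟩ := (ZMod.intCast_zmod_eq_zero_iff_dvd (γ 1 0) 4).1 h
  exact ⟨k, by exact_mod_cast hk⟩

theorem Tz (k : ℤ) : (ModularGroup.T ^ k) 0 0 = 1 ∧ (ModularGroup.T ^ k) 0 1 = k ∧
    (ModularGroup.T ^ k) 1 0 = 0 ∧ (ModularGroup.T ^ k) 1 1 = 1 := by
  have h := ModularGroup.coe_T_zpow k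
  refine ⟨?_, ?_, ?_, ?_⟩ <;> rw [h] <;> rfl

theorem L4z_nat (k : ℕ) : (L4 ^ k) 0 0 = 1 ∧ (L4 ^ k) 0 1 = 0 ∧
    (L4 ^ k) 1 0 = 4 * (k : ℤ) ∧ (L4 ^ k) 1 1 = 1 := by
  induction k with
  | zero => simp
  | succ k ih =>
    obtain ⟨h1, h2, h3, h4⟩ := ih
    have e : ∀ i j, (L4 ^ (k + 1)) i j = (L4 ^ k) i 0 * L4 0 j + (L4 ^ k) i 1 * L4 1 j := by
      intro i j
      rw [pow_succ, mul_entry]
    have l1 : L4 0 0 = 1 := rfl
    have l2 : L4 0 1 = 0 := rfl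
    have l3 : L4 1 0 = 4 := rfl
    have l4 : L4 1 1 = 1 := rfl
    refine ⟨?_, ?_, ?_, ?_⟩
    · rw [e, h1, h2, l1, l3]; norm_num
    · rw [e, h1, h2, l2, l4]; norm_num
    · rw [e, h3, h4, l1, l3]; push_cast; ring
    · rw [e, h3, h4, l2, l4]; norm_num

theorem L4z (k : ℤ) : (L4 ^ k) 0 0 = 1 ∧ (L4 ^ k) 0 1 = 0 ∧
    (L4 ^ k) 1 0 = 4 * k ∧ (L4 ^ k) 1 1 = 1 := by
  obtain ⟨n, rfl | rfl⟩ := k.eq_nat_or_neg
  · rw [zpow_natCast]
    exact L4z_nat n
  · rw [zpow_neg, zpow_natCast]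
    obtain ⟨h1, h2, h3, h4⟩ := L4z_nat n
    have e : ((L4 ^ n)⁻¹ : SL(2, ℤ)) = (L4 ^ n)⁻¹ := rfl
    have hi : (((L4 ^ n)⁻¹ : SL(2, ℤ)) : Matrix (Fin 2) (Fin 2) ℤ) =
        !![(L4 ^ n) 1 1, -(L4 ^ n) 0 1; -(L4 ^ n) 1 0, (L4 ^ n) 0 0] := by
      rw [Matrix.SpecialLinearGroup.coe_inv, Matrix.adjugate_fin_two]
    refine ⟨?_, ?_, ?_, ?_⟩
    · show (((L4 ^ n)⁻¹ : SL(2, ℤ)) : Matrix (Fin 2) (Fin 2) ℤ) 0 0 = _
      rw [hi, h4]; rfl
    · show (((L4 ^ n)⁻¹ : SL(2, ℤ)) : Matrix (Fin 2) (Fin 2) ℤ) 0 1 = _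
      rw [hi, h2]; simp
    · show (((L4 ^ n)⁻¹ : SL(2, ℤ)) : Matrix (Fin 2) (Fin 2) ℤ) 1 0 = _
      rw [hi, h3]; simp
    · show (((L4 ^ n)⁻¹ : SL(2, ℤ)) : Matrix (Fin 2) (Fin 2) ℤ) 1 1 = _
      rw [hi, h1]; rfl

theorem bal (c d : ℤ) (hc : c ≠ 0) : ∃ k : ℤ, 2 * |d + k * c| ≤ |c| := by
  have h1 := Int.emod_nonneg d hc
  have h2 := Int.emod_lt_abs d hc
  have h3 := Int.emod_add_mul_ediv d c
  by_cases h : 2 * (d % c) ≤ |c|
  · refine ⟨-(d / c), ?_⟩
    have e : d + -(d / c) * c = d % c := by linear_combination -h3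
    rw [e, abs_of_nonneg h1]
    exact h
  · rcases lt_or_gt_of_ne hc with hneg | hpos
    · refine ⟨-(d / c) + 1, ?_⟩
      have e : d + (-(d / c) + 1) * c = d % c + c := by linear_combination -h3
      rw [e]
      rw [abs_of_neg hneg] at h h2 ⊢
      rw [abs_of_nonpos (by linarith)]
      linarith
    · refine ⟨-(d / c) - 1, ?_⟩
      have e : d + (-(d / c) - 1) * c = d % c - c := by linear_combination -h3
      rw [e]
      rw [abs_of_pos hpos] at h h2 ⊢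
      rw [abs_of_nonpos (by linarith)]
      linarith

theorem gen (S : Subgroup SL(2, ℤ)) (hT : ModularGroup.T ∈ S) (hL : L4 ∈ S) (hn : (-1 : SL(2, ℤ)) ∈ S) :
    ∀ γ ∈ Gamma0 4, γ ∈ S := by
  have key : ∀ n : ℕ, ∀ γ : SL(2, ℤ), γ ∈ Gamma0 4 → (γ 1 0).natAbs ≤ n → γ ∈ S := by
    intro n
    induction n using Nat.strong_induction_on with
    | _ n ih =>
      intro γ hγ hn'
      have hdet := Me_det γ
      by_cases hc : γ 1 0 = 0
      · rw [hc, mul_zero, sub_zero] at hdet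
        obtain ⟨k, hk⟩ : ∃ k, γ 0 1 = k := ⟨_, rfl⟩
        rcases Int.mul_eq_one_iff_eq_one_or_neg_one.1 hdet with ⟨ha, hd⟩ | ⟨ha, hd⟩
        · have e : γ = ModularGroup.T ^ k := by
            obtain ⟨t1, t2, t3, t4⟩ := Tz k
            apply Subtype.ext
            ext i j
            fin_cases i <;> fin_cases j
            · exact ha.trans t1.symm
            · exact hk.trans t2.symm
            · exact hc.trans t3.symm
            · exact hd.trans t4.symm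
          rw [e]
          exact S.zpow_mem hT k
        · have e : γ = -1 * ModularGroup.T ^ (-k) := by
            obtain ⟨t1, t2, t3, t4⟩ := Tz (-k)
            apply Subtype.ext
            rw [neg_one_mul]
            ext i j
            fin_cases i <;> fin_cases j
            · show γ 0 0 = -((ModularGroup.T ^ (-k)) 0 0)
              rw [ha, t1]
            · show γ 0 1 = -((ModularGroup.T ^ (-k)) 0 1)
              rw [hk, t2, neg_neg]
            · show γ 1 0 = -((ModularGroup.T ^ (-k)) 1 0)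
              rw [hc, t3, neg_zero]
            · show γ 1 1 = -((ModularGroup.T ^ (-k)) 1 1)
              rw [hd, t4]
          rw [e]
          exact S.mul_mem hn (S.zpow_mem hT _)
      · obtain ⟨c0, hc0⟩ := four_dvd hγ
        obtain ⟨k, hk⟩ := bal (γ 1 0) (γ 1 1) hc
        obtain ⟨t1, t2, t3, t4⟩ := Tz k
        obtain ⟨d', hd'⟩ : ∃ d', d' = γ 1 1 + k * γ 1 0 := ⟨_, rfl⟩
        rw [← hd'] at hk
        have hodd : ¬ (2 : ℤ) ∣ d' := by
          rintro ⟨e, he⟩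
          have h2 : γ 1 1 = 2 * e - k * γ 1 0 := by rw [← he, hd']; ring
          rw [h2, hc0] at hdet
          have : (2 : ℤ) ∣ 1 := ⟨γ 0 0 * (e - 2 * k * c0) - 2 * γ 0 1 * c0, by linear_combination -hdet⟩
          norm_num at this
        have hd0 : 4 * d' ≠ 0 := by
          intro h
          apply hodd
          have : d' = 0 := by omega
          rw [this]
          exact dvd_zero _
        obtain ⟨l, hl⟩ := bal (4 * d') (γ 1 0) hd0
        obtain ⟨l1, l2, l3, l4⟩ := L4z l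
        have hm : γ * ModularGroup.T ^ k * L4 ^ l ∈ Gamma0 4 :=
          (Gamma0 4).mul_mem ((Gamma0 4).mul_mem hγ ((Gamma0 4).zpow_mem T_mem k))
            ((Gamma0 4).zpow_mem L4_mem l)
        have hent : (γ * ModularGroup.T ^ k * L4 ^ l) 1 0 = γ 1 0 + l * (4 * d') := by
          rw [mul_entry, mul_entry, mul_entry, t1, t2, t3, t4, l1, l3, hd']
          ring
        have hlt : |γ 1 0 + l * (4 * d')| < |γ 1 0| := by
          have h4 : |4 * d'| = 4 * |d'| := by rw [abs_mul]; norm_num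
          rw [h4] at hl
          have h5 : 2 * |d'| ≤ |γ 1 0| := hk
          have h6 : |γ 1 0 + l * (4 * d')| ≠ 2 * |d'| := by
            intro h7
            apply hodd
            have h8 : (4 : ℤ) ∣ |γ 1 0 + l * (4 * d')| := by
              rw [dvd_abs]
              exact ⟨c0 + l * d', by rw [hc0]; ring⟩
            rw [h7] at h8
            obtain ⟨e, he⟩ := h8
            have h9 : (2 : ℤ) ∣ |d'| := ⟨e, by linarith⟩
            rwa [dvd_abs] at h9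
          have h10 : |γ 1 0 + l * (4 * d')| ≤ 2 * |d'| := by linarith
          exact lt_of_lt_of_le (lt_of_le_of_ne h10 h6) h5
        have hlt' : ((γ * ModularGroup.T ^ k * L4 ^ l) 1 0).natAbs < n := by
          rw [hent]
          have h11 : (γ 1 0 + l * (4 * d')).natAbs < (γ 1 0).natAbs := by
            rw [Int.abs_eq_natAbs, Int.abs_eq_natAbs] at hlt
            exact_mod_cast hlt
          omega
        have hres := ih _ hlt' _ hm le_rfl
        have h12 : γ = γ * ModularGroup.T ^ k * L4 ^ l * (L4 ^ l)⁻¹ * (ModularGroup.T ^ k)⁻¹ := by group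
        rw [h12]
        exact S.mul_mem (S.mul_mem hres (S.inv_mem (S.zpow_mem hL l)))
          (S.inv_mem (S.zpow_mem hT k))
  intro γ hγ
  exact key _ γ hγ le_rfl

/-- `(-1)^(c/4)` -/
def sg (γ : SL(2, ℤ)) : ℤˣ := Int.negOnePow (γ 1 0 / 4)

theorem odd_entry {γ : SL(2, ℤ)} (h : γ ∈ Gamma0 4) : Odd (γ 0 0) ∧ Odd (γ 1 1) := by
  obtain ⟨c0, hc0⟩ := four_dvd h
  have hdet := Me_det γ
  rw [hc0] at hdet
  have h1 : Odd (γ 0 0 * γ 1 1) := ⟨2 * γ 0 1 * c0, by linear_combination hdet⟩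
  exact Int.odd_mul.1 h1

theorem sg_mul {x y : SL(2, ℤ)} (hx : x ∈ Gamma0 4) (hy : y ∈ Gamma0 4) : sg (x * y) = sg x * sg y := by
  obtain ⟨c, hc⟩ := four_dvd hx
  obtain ⟨c', hc'⟩ := four_dvd hy
  obtain ⟨-, hd⟩ := odd_entry hx
  obtain ⟨ha, -⟩ := odd_entry hy
  unfold sg
  rw [mul_entry, hc, hc', show 4 * c * y 0 0 + x 1 1 * (4 * c') = 4 * (c * y 0 0 + x 1 1 * c') by ring,
    Int.mul_ediv_cancel_left _ (by norm_num), Int.mul_ediv_cancel_left _ (by norm_num),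
    Int.mul_ediv_cancel_left _ (by norm_num), Int.negOnePow_add]
  obtain ⟨a, ha⟩ := ha
  obtain ⟨d, hd⟩ := hd
  rw [ha, hd]
  congr 1
  · rw [show c * (2 * a + 1) = 2 * (c * a) + c by ring, Int.negOnePow_add, Int.negOnePow_two_mul,
      one_mul]
  · rw [show (2 * d + 1) * c' = 2 * (d * c') + c' by ring, Int.negOnePow_add, Int.negOnePow_two_mul,
      one_mul]

/-- the matrices acting by the sign character -/
def Sg (h : ℍ → ℂ) : Subgroup SL(2, ℤ) where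
  carrier := {γ | γ ∈ Gamma0 4 ∧ h ∣[(4 : ℤ)] γ = (((sg γ : ℤˣ) : ℤ) : ℂ) • h}
  one_mem' := by
    refine ⟨(Gamma0 4).one_mem, ?_⟩
    rw [SlashAction.slash_one]
    have : sg 1 = 1 := by
      unfold sg
      simp
    rw [this]
    simp
  mul_mem' := by
    rintro x y ⟨hx, hx'⟩ ⟨hy, hy'⟩
    refine ⟨(Gamma0 4).mul_mem hx hy, ?_⟩
    rw [SlashAction.slash_mul, hx', ModularForm.SL_smul_slash, hy', sg_mul hx hy, smul_smul]
    push_cast
    rfl
  inv_mem' := by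
    rintro x ⟨hx, hx'⟩
    refine ⟨(Gamma0 4).inv_mem hx, ?_⟩
    have h1 : sg x * sg x⁻¹ = 1 := by
      rw [← sg_mul hx ((Gamma0 4).inv_mem hx), mul_inv_cancel]
      unfold sg
      simp
    have h2 : h = (((sg x : ℤˣ) : ℤ) : ℂ) • (h ∣[(4 : ℤ)] x⁻¹) := by
      rw [← ModularForm.SL_smul_slash, ← hx', ← SlashAction.slash_mul, mul_inv_cancel,
        SlashAction.slash_one]
    have h3 : ((((sg x⁻¹ : ℤˣ) : ℤ) : ℂ) * (((sg x : ℤˣ) : ℤ) : ℂ)) = 1 := by
      have := congrArg (fun u : ℤˣ => ((u : ℤ) : ℂ)) h1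
      push_cast at this
      rw [mul_comm]
      exact this
    calc h ∣[(4 : ℤ)] x⁻¹ = ((((sg x⁻¹ : ℤˣ) : ℤ) : ℂ) * (((sg x : ℤˣ) : ℤ) : ℂ)) • (h ∣[(4 : ℤ)] x⁻¹) := by
          rw [h3, one_smul]
      _ = (((sg x⁻¹ : ℤˣ) : ℤ) : ℂ) • h := by
          rw [← smul_smul, ← h2]

theorem Sg_all {h : ℍ → ℂ} (hT : h ∣[(4 : ℤ)] ModularGroup.T = h) (hL : h ∣[(4 : ℤ)] L4 = -h)
    (γ : SL(2, ℤ)) (hγ : γ ∈ Gamma0 4) : h ∣[(4 : ℤ)] γ = (((sg γ : ℤˣ) : ℤ) : ℂ) • h := by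
  refine (gen (Sg h) ⟨T_mem, ?_⟩ ⟨L4_mem, ?_⟩ ⟨?_, ?_⟩ γ hγ).2
  · have : sg ModularGroup.T = 1 := by
      unfold sg
      have : ModularGroup.T 1 0 = 0 := rfl
      rw [this]
      simp
    rw [hT, this]
    simp
  · have : sg L4 = -1 := by
      unfold sg
      have : L4 1 0 = 4 := rfl
      rw [this]
      simp
    rw [hL, this]
    simp
  · rw [Gamma0_mem]
    simp
  · have : sg (-1 : SL(2, ℤ)) = 1 := by
      unfold sg
      simp
    rw [this]
    funext τ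
    rw [SL_slash_apply, Me_den]
    have e0 : (-1 : SL(2, ℤ)) 1 0 = 0 := by simp
    have e1 : (-1 : SL(2, ℤ)) 1 1 = -1 := by simp
    rw [e0, e1, ModularGroup.SL_neg_smul, one_smul]
    norm_num

end Pool.Agent.H32.CY
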