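import Pool.Agent.H32.CY.He1
import Pool.Agent.H32.CY.He2
import Pool.Agent.H32.CY.Defs
import Pool.Agent.H85.OU.Md

/-!
# Hecke relation of the level `8` form, III: the analytic function

`g8 τ = (1/16) (u² - v²) u v`, `u = θ₃(2τ)²`, `v = θ₄(2τ)²`: q-expansion `f8`, `g8 ∣ T = g8`,
`g8 ∣ L4 = -g8`, holomorphic; `g8²` is a modular form of weight `8` on `Γ₀(4)`, so all `g8 ∣ γ` are
bounded at `i∞`.
-/

open PowerSeries UpperHalfPlane ModularForm MatrixGroups CongruenceSubgroup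
open scoped Manifold

namespace Pool.Agent.H32.CY

open Pool.Agent.H85.OT Pool.Agent.H85.OU

/-- `θ₄(2τ)²` -/
noncomputable def vv (τ : ℍ) : ℂ := Bb (2 * (τ : ℂ))

theorem uu_eq (τ : ℍ) : uu τ = Aa (2 * (τ : ℂ)) := rfl

theorem im2 (τ : ℍ) : 0 < (2 * (τ : ℂ)).im := by
  have : (2 * (τ : ℂ)).im = 2 * τ.im := by simp
  rw [this]
  have := τ.im_pos
  linarith

theorem QE_vv : QE vv (V ℂ) := by
  intro τ
  have h1 := (cv_th4 _ (im2 τ)).pow 2
  have h2 : Complex.exp (Real.pi * Complex.I * (2 * (τ : ℂ))) = Complex.exp (2 * Real.pi * Complex.I * (τ : ℂ)) := by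
    congr 1
    ring
  rw [h2] at h1
  have h3 : V ℂ = (PowerSeries.map (Int.castRingHom ℂ) th4) ^ 2 := by
    unfold V
    rw [map_pow]
  rw [h3]
  exact h1

/-- the analytic form -/
noncomputable def g8 : ℍ → ℂ := (1 / 16 : ℂ) • ((uu ^ 2 + (-1 : ℂ) • vv ^ 2) * (uu * vv))

theorem g8_apply (τ : ℍ) : g8 τ = 1 / 16 * ((uu τ ^ 2 - vv τ ^ 2) * (uu τ * vv τ)) := by
  unfold g8
  simp only [Pi.smul_apply, Pi.mul_apply, Pi.add_apply, Pi.pow_apply, smul_eq_mul]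
  ring

theorem QE_g8 : QE g8 (PowerSeries.map (Int.castRingHom ℂ) f8) := by
  have h1 := (((QE_uu.pow 2).add ((QE_vv.pow 2).smul (-1))).mul (QE_uu.mul QE_vv)).smul (1 / 16)
  have h2 : PowerSeries.map (Int.castRingHom ℂ) f8 = PowerSeries.C (1 / 16 : ℂ) *
      ((U ℂ ^ 2 + PowerSeries.C (-1 : ℂ) * V ℂ ^ 2) * (U ℂ * V ℂ)) := by
    have h := congrArg (PowerSeries.map (Int.castRingHom ℂ)) f8_eq
    have h3 : (PowerSeries.map (Int.castRingHom ℂ)) (th3 ^ 4 - th4 ^ 4) = U ℂ ^ 2 - V ℂ ^ 2 := by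
      rw [U, V, ← map_pow, ← map_pow, ← map_sub]
      congr 1
      ring
    have h4 : (PowerSeries.map (Int.castRingHom ℂ)) (th3 ^ 2 * th4 ^ 2) = U ℂ * V ℂ := by
      rw [U, V, ← map_mul]
    rw [map_mul, map_mul, h3, h4, map_ofNat] at h
    have h5 : PowerSeries.C (1 / 16 : ℂ) * 16 = 1 := by
      have h6 : (16 : ℂ⟦X⟧) = PowerSeries.C (16 : ℂ) := by rw [map_ofNat]
      rw [h6, ← map_mul]
      norm_num
    have h7 : PowerSeries.C (-1 : ℂ) = -1 := by rw [map_neg, map_one]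
    rw [h7]
    linear_combination PowerSeries.C (1 / 16 : ℂ) * h - (PowerSeries.map (Int.castRingHom ℂ)) f8 * h5
  rw [h2]
  exact h1

theorem g8_T : g8 ∣[(4 : ℤ)] ModularGroup.T = g8 := by
  funext τ
  rw [ModularForm.SL_slash_apply]
  have h2 : ((ModularGroup.T • τ : ℍ) : ℂ) = 1 + τ := by
    rw [modular_T_smul]
    simp
  have h3 : denom ModularGroup.T τ = 1 := by
    simp [denom, ModularGroup.coe_T]
  have hu : uu (ModularGroup.T • τ) = uu τ := by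
    unfold uu
    rw [h2, show (2 : ℂ) * (1 + τ) = 2 + 2 * τ by ring, jacobiTheta_two_add]
  have hv : vv (ModularGroup.T • τ) = vv τ := by
    unfold vv Bb
    rw [h2, show (2 : ℂ) * (1 + τ) + 1 = 2 + (2 * τ + 1) by ring, jacobiTheta_two_add]
  rw [h3, one_zpow, mul_one, g8_apply, g8_apply, hu, hv]

theorem g8_L : g8 ∣[(4 : ℤ)] L4 = -g8 := by
  funext τ
  rw [ModularForm.SL_slash_apply, Me_den]
  have e0 : L4 1 0 = 4 := rfl
  have e1 : L4 1 1 = 1 := rfl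
  have e2 : L4 0 0 = 1 := rfl
  have e3 : L4 0 1 = 0 := rfl
  have hne : (4 : ℂ) * τ + 1 ≠ 0 := by
    have := Wb_ne 4 1 (by norm_num) τ
    push_cast at this
    exact this
  have hL : 2 * ((L4 • τ : ℍ) : ℂ) = (2 * (τ : ℂ)) / (2 * (2 * (τ : ℂ)) + 1) := by
    rw [Me_coe, e0, e1, e2, e3]
    push_cast
    rw [← mul_div_assoc]
    congr 1 <;> ring
  have hu : uu (L4 • τ) = (4 * (τ : ℂ) + 1) * uu τ := by
    rw [uu_eq, uu_eq, hL, Aa_L _ (im2 τ)]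
    ring
  have hv : vv (L4 • τ) = -(4 * (τ : ℂ) + 1) * vv τ := by
    unfold vv
    rw [hL, Bb_L _ (im2 τ)]
    ring
  rw [Pi.neg_apply, g8_apply, g8_apply, hu, hv, e0, e1]
  have e4 : (-(4 : ℤ)) = -((4 : ℕ) : ℤ) := rfl
  rw [e4, zpow_neg, zpow_natCast]
  push_cast
  field_simp

theorem vv_hol : MDifferentiable 𝓘(ℂ) 𝓘(ℂ) vv := by
  rw [UpperHalfPlane.mdifferentiable_iff]
  refine .congr (f := fun z => jacobiTheta (2 * z + 1) ^ 2) (fun z hz => ?_) fun z hz => ?_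
  · have h1 : 0 < (2 * z + 1).im := by
      have : (2 * z + 1).im = 2 * z.im := by simp
      rw [this]
      have hz' : 0 < z.im := hz
      linarith
    exact ((DifferentiableAt.comp (f := fun z : ℂ => 2 * z + 1) (g := jacobiTheta) z
      (differentiableAt_jacobiTheta h1) (by fun_prop)).pow 2).differentiableWithinAt
  · simp [vv, Bb, ofComplex_apply_of_im_pos hz]

theorem g8_hol : MDifferentiable 𝓘(ℂ) 𝓘(ℂ) g8 :=
  (((Md_hol.pow 2).add ((vv_hol.pow 2).const_smul _)).mul (Md_hol.mul vv_hol)).const_smul _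

theorem isMF_vv : IsMF (Gamma0 4) 2 (vv ^ 2) := by
  obtain ⟨b, hb, hq⟩ := exists_gb'
  rw [Md_tR4] at hq
  have h := (QE_vv.pow 2).inj hq
  rw [h]
  exact hb

theorem g8_sq : g8 ^ 2 = (1 / 256 : ℂ) • ((uu ^ 2 + (-1 : ℂ) • vv ^ 2) ^ 2 * (uu ^ 2 * vv ^ 2)) := by
  funext τ
  simp only [Pi.pow_apply, g8_apply, Pi.smul_apply, Pi.mul_apply, Pi.add_apply, smul_eq_mul]
  ring

theorem isMF_g8_sq : IsMF (Gamma0 4) 8 (g8 ^ 2) := by
  rw [g8_sq]
  have h1 := isMF_ga.1.add (isMF_vv.smul (-1))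
  have h2 := ((h1.pow 2).mul (isMF_ga.1.mul isMF_vv)).smul (1 / 256)
  exact h2

theorem sq_slash (h : ℍ → ℂ) (γ : SL(2, ℤ)) : (h ^ 2) ∣[(8 : ℤ)] γ = (h ∣[(4 : ℤ)] γ) ^ 2 := by
  have h1 := ModularForm.mul_slash_SL2 4 4 γ h h
  rw [show (4 : ℤ) + 4 = 8 from rfl, ← pow_two h, ← pow_two] at h1
  exact h1

theorem bdd_of_sq {h : ℍ → ℂ} (hb : IsBoundedAtImInfty (h ^ 2)) : IsBoundedAtImInfty h := by
  rw [isBoundedAtImInfty_iff] at hb ⊢
  obtain ⟨B, A, hB⟩ := hb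
  refine ⟨B + 1, A, fun z hz => ?_⟩
  have h2 := hB z hz
  rw [Pi.pow_apply, norm_pow] at h2
  have h3 := norm_nonneg (h z)
  nlinarith

theorem g8_bdd (γ : SL(2, ℤ)) : IsBoundedAtImInfty (g8 ∣[(4 : ℤ)] γ) := by
  apply bdd_of_sq
  rw [← sq_slash]
  exact isMF_g8_sq.2.2 γ

end Pool.Agent.H32.CY
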