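import Pool.Agent.H32.CY.He3
import Pool.Agent.H85.OT.Vhec

/-!
# Hecke relation of the level `8` form, IV: the Hecke operator

`G = g8 ∣ [[p,0],[0,1]] + ∑_b g8 ∣ [[1,b],[0,p]]`, `p` odd.
* `G ∣ T = G`.
* `G ∣ L4 = -G`: `[[1,b],[0,p]] L4 = [[1+4b, k],[4p, 1-4b']] [[1,b'],[0,p]]` if `b - b'(1+4b) = p k`;
  `[[1,b],[0,p]] L4 = [[k,b],[4,p]] [[p,0],[0,1]]` if `1+4b = p k`;
  `[[p,0],[0,1]] L4 = [[p,-b'],[4,k]] [[1,b'],[0,p]]` if `1 - 4b' = p k`;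
  all three matrices lie in `Γ₀(4)` with `sg = -1`.
-/

open UpperHalfPlane ModularForm MatrixGroups CongruenceSubgroup
open Matrix.SpecialLinearGroup (mapGL)
open scoped Manifold

namespace Pool.Agent.H32.CY

open Pool.Agent.H85.OT Pool.Agent.H85.OU

theorem g8_all (γ : SL(2, ℤ)) (hγ : γ ∈ Gamma0 4) : g8 ∣[(4 : ℤ)] γ = (((sg γ : ℤˣ) : ℤ) : ℂ) • g8 :=
  Sg_all g8_T g8_L γ hγ

theorem g8_Tk (k : ℤ) : g8 ∣[(4 : ℤ)] (mapGL ℝ (ModularGroup.T ^ k) : GL (Fin 2) ℝ) = g8 := by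
  have h := g8_all (ModularGroup.T ^ k) ((Gamma0 4).zpow_mem T_mem k)
  have h1 : sg (ModularGroup.T ^ k) = 1 := by
    unfold sg
    rw [(Tz k).2.2.1]
    simp
  rw [h1] at h
  simp only [Units.val_one, Int.cast_one, one_smul] at h
  exact h

theorem key_neg (γ : SL(2, ℤ)) (hγ : γ ∈ Gamma0 4) (hs : sg γ = -1) (A B C : GL (Fin 2) ℝ)
    (h : A * B = mapGL ℝ γ * C) :
    (g8 ∣[(4 : ℤ)] A) ∣[(4 : ℤ)] B = -(g8 ∣[(4 : ℤ)] C) := by
  have h1 : g8 ∣[(4 : ℤ)] (mapGL ℝ γ : GL (Fin 2) ℝ) = -g8 := by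
    have h2 := g8_all γ hγ
    rw [hs] at h2
    have h3 : (((-1 : ℤˣ) : ℤ) : ℂ) • g8 = -g8 := by
      simp
    rw [h3] at h2
    exact h2
  rw [← SlashAction.slash_mul, h, SlashAction.slash_mul, h1, SlashAction.neg_slash]

theorem key_T (k : ℤ) (A B C : GL (Fin 2) ℝ) (h : A * B = mapGL ℝ (ModularGroup.T ^ k) * C) :
    (g8 ∣[(4 : ℤ)] A) ∣[(4 : ℤ)] B = (g8 ∣[(4 : ℤ)] C) := by
  rw [← SlashAction.slash_mul, h, SlashAction.slash_mul, g8_Tk]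

theorem mem4 (a b c d : ℤ) (h : a * d - b * (4 * c) = 1) : Wb_m a b (4 * c) d h ∈ Gamma0 4 := by
  rw [Gamma0_mem]
  show ((4 * c : ℤ) : ZMod 4) = 0
  rw [ZMod.intCast_zmod_eq_zero_iff_dvd]
  exact ⟨c, by push_cast; ring⟩

theorem sg4 (a b c d : ℤ) (h : a * d - b * (4 * c) = 1) (hc : Odd c) :
    sg (Wb_m a b (4 * c) d h) = -1 := by
  unfold sg
  have : (Wb_m a b (4 * c) d h) 1 0 = 4 * c := rfl
  rw [this, Int.mul_ediv_cancel_left _ (by norm_num)]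
  exact Int.negOnePow_odd c hc

theorem n1 (p : ℕ) (hp : p ≠ 0) (hodd : Odd (p : ℤ)) (b b' k : ℤ) (h : b - b' * (1 + 4 * b) = p * k) :
    (g8 ∣[(4 : ℤ)] (Vhec_A p hp b)) ∣[(4 : ℤ)] (mapGL ℝ L4 : GL (Fin 2) ℝ) =
      -(g8 ∣[(4 : ℤ)] (Vhec_A p hp b')) := by
  have hd : (1 + 4 * b) * (1 - 4 * b') - k * (4 * (p : ℤ)) = 1 := by linear_combination 4 * h
  refine key_neg (Wb_m (1 + 4 * b) k (4 * (p : ℤ)) (1 - 4 * b') hd) (mem4 _ _ _ _ _)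
    (sg4 _ _ _ _ _ hodd) _ _ _ ?_
  apply Units.ext
  have hR : (b : ℝ) - b' * (1 + 4 * b) = p * k := by exact_mod_cast h
  rw [Units.val_mul, Units.val_mul, Vhec_A_val, Vhec_A_val,
    Vhec_gl L4 1 0 4 1 rfl, Vhec_gl _ (1 + 4 * b) k (4 * (p : ℤ)) (1 - 4 * b') rfl, Vhec_mul2, Vhec_mul2]
  ext i j
  fin_cases i <;> fin_cases j
  · simp
    ring
  · simp
    linear_combination hR
  · simp
    ring
  · simp
    ring

theorem n2 (p : ℕ) (hp : p ≠ 0) (b k : ℤ) (h : 1 + 4 * b = p * k) :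
    (g8 ∣[(4 : ℤ)] (Vhec_A p hp b)) ∣[(4 : ℤ)] (mapGL ℝ L4 : GL (Fin 2) ℝ) =
      -(g8 ∣[(4 : ℤ)] (Vhec_Ai p hp)) := by
  have hd : k * (p : ℤ) - b * (4 * 1) = 1 := by linear_combination -h
  refine key_neg (Wb_m k b (4 * 1) (p : ℤ) hd) (mem4 _ _ _ _ _) (sg4 _ _ _ _ _ odd_one) _ _ _ ?_
  apply Units.ext
  have hR : (1 : ℝ) + 4 * b = p * k := by exact_mod_cast h
  rw [Units.val_mul, Units.val_mul, Vhec_A_val, Vhec_Ai_val,
    Vhec_gl L4 1 0 4 1 rfl, Vhec_gl _ k b (4 * 1) (p : ℤ) rfl, Vhec_mul2, Vhec_mul2]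
  ext i j
  fin_cases i <;> fin_cases j
  · simp
    linear_combination hR
  · simp
  · simp
    ring
  · simp

theorem n3 (p : ℕ) (hp : p ≠ 0) (b' k : ℤ) (h : 1 - 4 * b' = p * k) :
    (g8 ∣[(4 : ℤ)] (Vhec_Ai p hp)) ∣[(4 : ℤ)] (mapGL ℝ L4 : GL (Fin 2) ℝ) =
      -(g8 ∣[(4 : ℤ)] (Vhec_A p hp b')) := by
  have hd : (p : ℤ) * k - (-b') * (4 * 1) = 1 := by linear_combination -h
  refine key_neg (Wb_m (p : ℤ) (-b') (4 * 1) k hd) (mem4 _ _ _ _ _) (sg4 _ _ _ _ _ odd_one) _ _ _ ?_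
  apply Units.ext
  have hR : (1 : ℝ) - 4 * b' = p * k := by exact_mod_cast h
  rw [Units.val_mul, Units.val_mul, Vhec_A_val, Vhec_Ai_val,
    Vhec_gl L4 1 0 4 1 rfl, Vhec_gl _ (p : ℤ) (-b') (4 * 1) k rfl, Vhec_mul2, Vhec_mul2]
  ext i j
  fin_cases i <;> fin_cases j
  · simp
  · simp
    ring
  · simp
  · simp
    linear_combination hR

section

variable (p : ℕ) (hp : p ≠ 0)

/-- `g8 ∣ [[1,b],[0,p]]` -/
noncomputable def Fb (b : ℤ) : ℍ → ℂ := g8 ∣[(4 : ℤ)] (Vhec_A p hp b)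

theorem Fb_per (b k : ℤ) : Fb p hp (b + p * k) = Fb p hp b := by
  unfold Fb
  rw [Vhec_m1, SlashAction.slash_mul, g8_Tk]

theorem Fb_cast [NeZero p] (b : ℤ) : Fb p hp (((b : ZMod p).val : ℕ) : ℤ) = Fb p hp b := by
  have h1 : ((((b : ZMod p).val : ℕ) : ℤ) : ZMod p) = (b : ZMod p) := by
    rw [Int.cast_natCast, ZMod.natCast_zmod_val]
  rw [ZMod.intCast_eq_intCast_iff_dvd_sub] at h1
  obtain ⟨k, hk⟩ := h1
  rw [← Fb_per p hp _ k, ← hk]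
  congr 1
  ring

/-- the Hecke operator -/
noncomputable def G8 [NeZero p] : ℍ → ℂ :=
  (g8 ∣[(4 : ℤ)] (Vhec_Ai p hp)) + ∑ x : ZMod p, Fb p hp ((x.val : ℕ) : ℤ)

theorem G8_T [NeZero p] : G8 p hp ∣[(4 : ℤ)] (ModularGroup.T : SL(2, ℤ)) = G8 p hp := by
  unfold G8
  rw [SlashAction.add_slash, SlashAction.sum_slash]
  congr 1
  · exact key_T (p : ℤ) _ _ _ (Vhec_m3 p hp)
  · rw [← Equiv.sum_comp (Equiv.addRight (1 : ZMod p))
      (fun x : ZMod p => Fb p hp ((x.val : ℕ) : ℤ))]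
    refine Finset.sum_congr rfl fun x _ => ?_
    have hT : ∀ b : ℤ, Fb p hp b ∣[(4 : ℤ)] (ModularGroup.T : SL(2, ℤ)) = Fb p hp (b + 1) := by
      intro b
      refine key_T 0 _ _ _ ?_
      rw [zpow_zero]
      exact Vhec_m2 p hp b
    rw [hT, Equiv.coe_addRight]
    change _ = Fb p hp (((x + 1 : ZMod p).val : ℕ) : ℤ)
    have h1 : (x + 1 : ZMod p) = (((x.val : ℤ) + 1 : ℤ) : ZMod p) := by
      rw [Int.cast_add, Int.cast_one, Int.cast_natCast, ZMod.natCast_zmod_val]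
    rw [h1, Fb_cast]

theorem G8_L [hpp : Fact p.Prime] (h2 : p ≠ 2) : G8 p hp ∣[(4 : ℤ)] (L4 : SL(2, ℤ)) = -G8 p hp := by
  have hoddN : Odd p := hpp.out.odd_of_ne_two h2
  have hodd : Odd (p : ℤ) := by exact_mod_cast hoddN
  have h20 : (2 : ZMod p) ≠ 0 := two_ne h2
  have h40 : (4 : ZMod p) ≠ 0 := by
    have : (4 : ZMod p) = 2 * 2 := by norm_num
    rw [this]
    exact mul_ne_zero h20 h20
  obtain ⟨x0, hx0⟩ : ∃ x0 : ZMod p, x0 = -4⁻¹ := ⟨_, rfl⟩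
  obtain ⟨x1, hx1⟩ : ∃ x1 : ZMod p, x1 = 4⁻¹ := ⟨_, rfl⟩
  have hA : (g8 ∣[(4 : ℤ)] (Vhec_Ai p hp)) ∣[(4 : ℤ)] (L4 : SL(2, ℤ)) = -Fb p hp ((x1.val : ℕ) : ℤ) := by
    have h1 : (((1 - 4 * ((x1.val : ℕ) : ℤ) : ℤ)) : ZMod p) = 0 := by
      push_cast
      rw [ZMod.natCast_zmod_val, hx1, mul_inv_cancel₀ h40, sub_self]
    rw [ZMod.intCast_zmod_eq_zero_iff_dvd] at h1
    obtain ⟨k, hk⟩ := h1
    exact n3 p hp _ k hk
  have hB : Fb p hp ((x0.val : ℕ) : ℤ) ∣[(4 : ℤ)] (L4 : SL(2, ℤ)) = -(g8 ∣[(4 : ℤ)] (Vhec_Ai p hp)) := by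
    have h1 : (((1 + 4 * ((x0.val : ℕ) : ℤ) : ℤ)) : ZMod p) = 0 := by
      push_cast
      rw [ZMod.natCast_zmod_val, hx0, mul_neg, mul_inv_cancel₀ h40]
      ring
    rw [ZMod.intCast_zmod_eq_zero_iff_dvd] at h1
    obtain ⟨k, hk⟩ := h1
    exact n2 p hp _ k hk
  have hne : ∀ x : ZMod p, x ≠ x0 → 1 + 4 * x ≠ 0 := by
    intro x hx h
    apply hx
    rw [hx0]
    field_simp
    linear_combination h
  have hne' : ∀ y : ZMod p, y ≠ x1 → 1 - 4 * y ≠ 0 := by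
    intro y hy h
    apply hy
    rw [hx1]
    field_simp
    linear_combination -h
  have hC : ∀ x : ZMod p, x ≠ x0 → Fb p hp ((x.val : ℕ) : ℤ) ∣[(4 : ℤ)] (L4 : SL(2, ℤ)) =
      -Fb p hp (((x / (1 + 4 * x) : ZMod p).val : ℕ) : ℤ) := by
    intro x hx
    have h1 : ((((x.val : ℕ) : ℤ) - (((x / (1 + 4 * x) : ZMod p).val : ℕ) : ℤ) *
        (1 + 4 * ((x.val : ℕ) : ℤ)) : ℤ) : ZMod p) = 0 := by
      push_cast
      rw [ZMod.natCast_zmod_val, ZMod.natCast_zmod_val, div_mul_cancel₀ _ (hne x hx), sub_self]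
    rw [ZMod.intCast_zmod_eq_zero_iff_dvd] at h1
    obtain ⟨k, hk⟩ := h1
    exact n1 p hp hodd _ _ k hk
  have hsum : ∑ x ∈ Finset.univ.erase x0, Fb p hp (((x / (1 + 4 * x) : ZMod p).val : ℕ) : ℤ) =
      ∑ y ∈ Finset.univ.erase x1, Fb p hp ((y.val : ℕ) : ℤ) := by
    refine Finset.sum_nbij' (fun x => x / (1 + 4 * x)) (fun y => y / (1 - 4 * y)) ?_ ?_ ?_ ?_ ?_
    · intro x hx
      have hx' := Finset.ne_of_mem_erase hx
      refine Finset.mem_erase.2 ⟨fun h => ?_, Finset.mem_univ _⟩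
      have h3 := hne x hx'
      rw [hx1, div_eq_iff h3] at h
      have h4 : (4 : ZMod p) * 4⁻¹ = 1 := mul_inv_cancel₀ h40
      have h5 : (1 : ZMod p) = 0 := by linear_combination -4 * h + (-(1 + 4 * x)) * h4
      exact one_ne_zero h5
    · intro y hy
      have hy' := Finset.ne_of_mem_erase hy
      refine Finset.mem_erase.2 ⟨fun h => ?_, Finset.mem_univ _⟩
      have h3 := hne' y hy'
      rw [hx0, div_eq_iff h3] at h
      have h4 : (4 : ZMod p) * 4⁻¹ = 1 := mul_inv_cancel₀ h40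
      have h5 : (1 : ZMod p) = 0 := by linear_combination 4 * h + (-(1 - 4 * y)) * h4
      exact one_ne_zero h5
    · intro x hx
      have h3 := hne x (Finset.ne_of_mem_erase hx)
      have h4 : 1 - 4 * (x / (1 + 4 * x)) = 1 / (1 + 4 * x) := by
        field_simp
        ring
      rw [h4, div_div_eq_mul_div, div_one, div_mul_cancel₀ x h3]
    · intro y hy
      have h3 := hne' y (Finset.ne_of_mem_erase hy)
      have h4 : 1 + 4 * (y / (1 - 4 * y)) = 1 / (1 - 4 * y) := by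
        field_simp
        ring
      rw [h4, div_div_eq_mul_div, div_one, div_mul_cancel₀ y h3]
    · intro x _
      rfl
  have hS : ∑ x : ZMod p, Fb p hp ((x.val : ℕ) : ℤ) ∣[(4 : ℤ)] (L4 : SL(2, ℤ)) =
      -(g8 ∣[(4 : ℤ)] (Vhec_Ai p hp)) - ∑ y ∈ Finset.univ.erase x1, Fb p hp ((y.val : ℕ) : ℤ) := by
    rw [← Finset.add_sum_erase _ _ (Finset.mem_univ x0), hB,
      Finset.sum_congr rfl fun x hx => hC x (Finset.ne_of_mem_erase hx), Finset.sum_neg_distrib, hsum]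
    abel
  unfold G8
  rw [SlashAction.add_slash, SlashAction.sum_slash, hA, hS,
    ← Finset.add_sum_erase _ (fun y : ZMod p => Fb p hp ((y.val : ℕ) : ℤ)) (Finset.mem_univ x1)]
  abel

end

end Pool.Agent.H32.CY
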