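import Pool.Agent.H32.CY.He4
import Pool.Agent.H85.OT.OrdL

/-!
# Hecke relation of the level `8` form, V: cusps

* `(f ∣ A)(z) = f(A z) a³/d` for `A = [[a,b],[0,d]]` (weight `4`).
* Hermite: an integral matrix of positive determinant is `m [[a,b],[0,d]]`, `m ∈ SL₂(ℤ)`, so all
  `g8 ∣ A ∣ γ` are bounded at `i∞`, hence so is `G8 ∣ γ`.
-/

open UpperHalfPlane ModularForm MatrixGroups CongruenceSubgroup Filter Topology
open Matrix.SpecialLinearGroup (mapGL)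
open scoped Manifold

namespace Pool.Agent.H32.CY

open Pool.Agent.H85.OT Pool.Agent.H85.OU

theorem slash4 (A : GL (Fin 2) ℝ) (a b d : ℝ) (ha : 0 < a) (hd : 0 < d)
    (hA : (A : Matrix (Fin 2) (Fin 2) ℝ) = !![a, b; 0, d]) (f : ℍ → ℂ) (z : ℍ) :
    (f ∣[(4 : ℤ)] A) z = f (A • z) * ((a : ℂ) ^ 3 / d) := by
  have hdet := Vhec_det A a b d hA
  have hσ : σ A (f (A • z)) = f (A • z) := by
    unfold σ
    rw [if_pos (by rw [hdet]; positivity)]
    rfl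
  have hden : denom A (z : ℂ) = d := by
    unfold denom
    rw [hA]
    simp
  rw [ModularForm.slash_apply, hσ, hden, hdet, abs_of_pos (by positivity)]
  have hd' : (d : ℂ) ≠ 0 := by exact_mod_cast hd.ne'
  have h1 : (4 : ℤ) - 1 = ((3 : ℕ) : ℤ) := by norm_num
  have h2 : (-4 : ℤ) = -((4 : ℕ) : ℤ) := by norm_num
  rw [h1, h2, zpow_neg, zpow_natCast, zpow_natCast]
  push_cast
  field_simp

theorem bdd_upper (A : GL (Fin 2) ℝ) (a b d : ℝ) (ha : 0 < a) (hd : 0 < d)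
    (hA : (A : Matrix (Fin 2) (Fin 2) ℝ) = !![a, b; 0, d]) {f : ℍ → ℂ}
    (hf : IsBoundedAtImInfty f) : IsBoundedAtImInfty (f ∣[(4 : ℤ)] A) := by
  rw [isBoundedAtImInfty_iff] at hf ⊢
  obtain ⟨M, B, hB⟩ := hf
  refine ⟨M * (a ^ 3 / d), B * (d / a), fun z hz => ?_⟩
  rw [slash4 A a b d ha hd hA, norm_mul]
  have h1 : B ≤ (A • z : ℍ).im := by
    rw [Vhec_im A a b d ha hd hA]
    have : B = a / d * (B * (d / a)) := by field_simp
    rw [this]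
    exact mul_le_mul_of_nonneg_left hz (by positivity)
  have h2 : ‖((a : ℂ) ^ 3 / d)‖ = a ^ 3 / d := by
    rw [norm_div, norm_pow, Complex.norm_real, Complex.norm_real, Real.norm_of_nonneg ha.le,
      Real.norm_of_nonneg hd.le]
  rw [h2]
  exact mul_le_mul_of_nonneg_right (hB _ h1) (by positivity)

theorem hermite (α β γ δ : ℤ) (h : 0 < α * δ - β * γ) :
    ∃ (m : SL(2, ℤ)) (a b d : ℤ), 0 < a ∧ 0 < d ∧ α = m 0 0 * a ∧ β = m 0 0 * b + m 0 1 * d ∧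
      γ = m 1 0 * a ∧ δ = m 1 0 * b + m 1 1 * d := by
  have hg : 0 < Int.gcd α γ := by
    rw [Int.gcd_pos_iff]
    by_contra hcon
    push Not at hcon
    rw [hcon.1, hcon.2] at h
    simp at h
  obtain ⟨α', γ', h1, h2, h3⟩ := Int.exists_gcd_one hg
  obtain ⟨u, v, huv⟩ := Int.isCoprime_iff_gcd_eq_one.2 h1
  obtain ⟨g, hgg⟩ : ∃ g : ℤ, g = (Int.gcd α γ : ℤ) := ⟨_, rfl⟩
  have hg0 : 0 < g := by
    rw [hgg]
    exact_mod_cast hg
  rw [← hgg] at h2 h3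
  have hd : 0 < α' * δ - γ' * β := by
    have h4 : α * δ - β * γ = g * (α' * δ - γ' * β) := by
      rw [h2, h3]
      ring
    rw [h4] at h
    exact (pos_iff_pos_of_mul_pos h).1 hg0
  refine ⟨Wb_m α' (-v) γ' u (by linear_combination huv), g, u * β + v * δ, α' * δ - γ' * β, hg0, hd,
    h2, ?_, h3, ?_⟩
  · show β = α' * (u * β + v * δ) + (-v) * (α' * δ - γ' * β)
    linear_combination (-β) * huv
  · show δ = γ' * (u * β + v * δ) + u * (α' * δ - γ' * β)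
    linear_combination (-δ) * huv

theorem bdd_gen (A : GL (Fin 2) ℝ) (α β γ δ : ℤ) (h : 0 < α * δ - β * γ)
    (hA : (A : Matrix (Fin 2) (Fin 2) ℝ) = !![(α : ℝ), β; γ, δ]) :
    IsBoundedAtImInfty (g8 ∣[(4 : ℤ)] A) := by
  obtain ⟨m, a, b, d, ha, hd, e1, e2, e3, e4⟩ := hermite α β γ δ h
  have haR : (0 : ℝ) < a := by exact_mod_cast ha
  have hdR : (0 : ℝ) < d := by exact_mod_cast hd
  obtain ⟨D, hD⟩ : ∃ D : GL (Fin 2) ℝ,
      (D : Matrix (Fin 2) (Fin 2) ℝ) = !![(a : ℝ), b; 0, d] :=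
    ⟨Matrix.GeneralLinearGroup.mkOfDetNeZero !![(a : ℝ), b; 0, d]
      (by simp [haR.ne', hdR.ne']), rfl⟩
  have hm : A = mapGL ℝ m * D := by
    apply Units.ext
    rw [Units.val_mul, hA, hD, Vhec_gl m (m 0 0) (m 0 1) (m 1 0) (m 1 1) (Matrix.eta_fin_two _),
      Vhec_mul2, e1, e2, e3, e4]
    push_cast
    ext i j
    fin_cases i <;> fin_cases j <;> simp
  rw [hm, SlashAction.slash_mul]
  exact bdd_upper D a b d haR hdR hD (g8_bdd m)

theorem bdd_mul (A : GL (Fin 2) ℝ) (a b d : ℤ) (ha : 0 < a) (hd : 0 < d)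
    (hA : (A : Matrix (Fin 2) (Fin 2) ℝ) = !![(a : ℝ), b; 0, d]) (γ : SL(2, ℤ)) :
    IsBoundedAtImInfty ((g8 ∣[(4 : ℤ)] A) ∣[(4 : ℤ)] γ) := by
  have h1 : (g8 ∣[(4 : ℤ)] A) ∣[(4 : ℤ)] γ = g8 ∣[(4 : ℤ)] (A * mapGL ℝ γ) := by
    rw [SlashAction.slash_mul]
    rfl
  rw [h1]
  refine bdd_gen _ (a * γ 0 0 + b * γ 1 0) (a * γ 0 1 + b * γ 1 1) (d * γ 1 0) (d * γ 1 1) ?_ ?_
  · have h2 : (a * γ 0 0 + b * γ 1 0) * (d * γ 1 1) - (a * γ 0 1 + b * γ 1 1) * (d * γ 1 0) =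
        a * d := by
      linear_combination (a * d) * Me_det γ
    rw [h2]
    positivity
  · rw [Units.val_mul, hA, Vhec_gl γ (γ 0 0) (γ 0 1) (γ 1 0) (γ 1 1) (Matrix.eta_fin_two _),
      Vhec_mul2]
    push_cast
    ext i j
    fin_cases i <;> fin_cases j <;> simp

section

variable (p : ℕ) (hp : p ≠ 0)

theorem G8_bdd [NeZero p] (γ : SL(2, ℤ)) : IsBoundedAtImInfty (G8 p hp ∣[(4 : ℤ)] γ) := by
  have hp0 : (0 : ℤ) < p := by exact_mod_cast Nat.pos_of_ne_zero hp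
  unfold G8
  rw [SlashAction.add_slash, SlashAction.sum_slash]
  refine Filter.BoundedAtFilter.add ?_ ?_
  · refine bdd_mul _ p 0 1 hp0 one_pos ?_ γ
    rw [Vhec_Ai_val]
    push_cast
    rfl
  · refine Finset.sum_induction _ (fun f : ℍ → ℂ => IsBoundedAtImInfty f)
      (fun a b ha hb => Filter.BoundedAtFilter.add ha hb)
      (Filter.const_boundedAtFilter _ 0) fun x _ => ?_
    refine bdd_mul _ 1 ((x.val : ℕ) : ℤ) p one_pos hp0 ?_ γ
    rw [Vhec_A_val]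
    push_cast
    rfl

theorem G8_hol [NeZero p] : MDifferentiable 𝓘(ℂ) 𝓘(ℂ) (G8 p hp) := by
  have h2 := g8_hol.slash 4 (Vhec_Ai p hp)
  have h3 := MDifferentiable.sum (t := Finset.univ) fun (x : ZMod p) _ =>
    g8_hol.slash 4 (Vhec_A p hp ((x.val : ℕ) : ℤ))
  exact h2.add h3

end

end Pool.Agent.H32.CY
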