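import Pool.Agent.H32.CY.Final

/-!
# Quadratic twists of the rigid Calabi-Yau threefold

`d w² = x y z (x+1) (z+1) (x+y) (y+z)`: modulo a prime `p ∤ 2d` the number of points is
`d^((p-1)/2)` times the number of points of `w² = x y z (x+1) (z+1) (x+y) (y+z)`.
-/

namespace Pool.Agent.H32.CY

open Pool.Agent.H85.OT

/-- number of points over `F_p` of the affine threefold `d w² = x y z (x+1) (z+1) (x+y) (y+z)` -/
noncomputable def pointsd (d : ℤ) (p : ℕ) : ℕ :=
  Nat.card {s : ZMod p × ZMod p × ZMod p × ZMod p //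
    (d : ZMod p) * s.2.2.2 ^ 2 = s.1 * s.2.1 * s.2.2.1 * (s.1 + 1) * (s.2.2.1 + 1) *
      (s.1 + s.2.1) * (s.2.1 + s.2.2.1)}

section

variable {p : ℕ} [hp : Fact p.Prime]

theorem card_sqd (h2 : p ≠ 2) (δ : ZMod p) (hδ : δ ≠ 0) (a : ZMod p) :
    ((Nat.card {w : ZMod p // δ * w ^ 2 = a} : ℕ) : ZMod p) = 1 + δ ^ mm p * a ^ mm p := by
  have e : {w : ZMod p // δ * w ^ 2 = a} ≃ {w : ZMod p // w ^ 2 = δ * a} :=
    (Equiv.mulLeft₀ δ hδ).subtypeEquiv fun w => by
      change _ ↔ (δ * w) ^ 2 = δ * a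
      constructor
      · intro h
        rw [← h]
        ring
      · intro h
        apply mul_left_cancel₀ hδ
        rw [← h]
        ring
  rw [Nat.card_congr e, card_sq h2, mul_pow]

/-- the sum of the `m`-th powers -/
noncomputable def powsum (p : ℕ) [Fact p.Prime] : ZMod p :=
  ∑ x : ZMod p, ∑ y : ZMod p, ∑ z : ZMod p,
    (x * y * z * (x + 1) * (z + 1) * (x + y) * (y + z)) ^ mm p

theorem pointsd_eq (h2 : p ≠ 2) (d : ℤ) (hd : (d : ZMod p) ≠ 0) :
    ((pointsd d p : ℕ) : ZMod p) = (d : ZMod p) ^ mm p * powsum p := by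
  classical
  have h1 : pointsd d p = ∑ x : ZMod p, ∑ y : ZMod p, ∑ z : ZMod p,
      Nat.card {w : ZMod p // (d : ZMod p) * w ^ 2 =
        x * y * z * (x + 1) * (z + 1) * (x + y) * (y + z)} := by
    unfold pointsd
    simp only [Nat.card_eq_fintype_card, Fintype.card_subtype, Finset.card_filter]
    rw [Fintype.sum_prod_type]
    refine Finset.sum_congr rfl fun x _ => ?_
    rw [Fintype.sum_prod_type]
    refine Finset.sum_congr rfl fun y _ => ?_
    rw [Fintype.sum_prod_type]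
  rw [h1]
  push_cast
  simp_rw [card_sqd h2 _ hd, Finset.sum_add_distrib]
  have h4 : ∑ _x : ZMod p, ∑ _y : ZMod p, ∑ _z : ZMod p, (1 : ZMod p) = 0 := by
    simp [ZMod.card]
  rw [h4, zero_add]
  simp_rw [← Finset.mul_sum]
  rfl

theorem points_eq' (h2 : p ≠ 2) : ((points p : ℕ) : ZMod p) = powsum p := by
  have h : points p = pointsd 1 p := by
    unfold points pointsd
    refine Nat.card_congr (Equiv.subtypeEquivRight fun s => ?_)
    rw [Int.cast_one, one_mul]
  rw [h, pointsd_eq h2 1 (by rw [Int.cast_one]; exact one_ne_zero), Int.cast_one, one_pow, one_mul]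

theorem dvd_pointsd_iff (h2 : p ≠ 2) (d : ℤ) (hd : (d : ZMod p) ≠ 0) :
    p ∣ pointsd d p ↔ p ∣ points p := by
  rw [← ZMod.natCast_eq_zero_iff, ← ZMod.natCast_eq_zero_iff, pointsd_eq h2 d hd, points_eq' h2,
    mul_eq_zero, or_iff_right (pow_ne_zero _ hd)]

end

theorem cy_ordinary_twist (d : ℤ) (hd : d ≠ 0) : PosLower (fun p => ¬ p ∣ pointsd d p) := by
  have h1 : PosLower (fun p => p.Prime ∧ ¬ p ∣ points p) := by
    obtain ⟨c, hc, x0, hx0⟩ := cy_ordinary
    refine ⟨c, hc, x0, fun x hx => (hx0 x hx).trans ?_⟩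
    have h2 : cnt (fun p => ¬ p ∣ points p) x ≤ cnt (fun p => p.Prime ∧ ¬ p ∣ points p) x := by
      unfold cnt
      refine Finset.card_le_card fun p hp => ?_
      simp only [Finset.mem_filter] at hp ⊢
      exact ⟨hp.1, hp.2.1, hp.2.1, hp.2.2⟩
    exact_mod_cast h2
  refine PosLower.congr (d.natAbs + 3) (fun p hp h2 => ?_) h1
  have : Fact p.Prime := ⟨h2.1⟩
  rw [dvd_pointsd_iff (by omega) d]
  · exact h2.2
  · intro h
    rw [ZMod.intCast_zmod_eq_zero_iff_dvd] at h
    have h3 := Int.natAbs_dvd_natAbs.2 h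
    rw [Int.natAbs_natCast] at h3
    have h4 := Nat.le_of_dvd (Int.natAbs_pos.2 hd) h3
    omega

end Pool.Agent.H32.CY
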